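import Pool.Agent.Lib.MP_06b9d2_nt.MU.T2q
import Pool.Agent.Lib.MP_06b9d2_nt.MD.HeckeQ
import Pool.Agent.Lib.L1.Eis
import Pool.Agent.Lib.L1.SpanC

/-!
Module MU-Mtx. The integral matrix of `T_2`.

`n = dd k - 1` (`Pool/Agent/Lib/L1/Span.lean`; `bas R k j = dl R ^ j * e4 R ^ _ * e6 R ^ _`,
`j < dd k`). `Phi_ex`: for a cusp form `f` of weight `k`, `qExpansion 1 f ∈ ML ℂ k` (`form_mem_ML`,
`L1/SpanC.lean`), so `qExpansion 1 f = ∑_{j < dd k} c_j • bas ℂ k j` (`mem_ML_iff`), `c_0 = 0` because the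
constant coefficient is `0` (`coeff_bas_self`, `coeff_bas_lt`); the `c_j` are unique (`echelon` in
`L1/Span.lean`, or `coeff_bas_self`/`coeff_bas_lt`); `Φ f j = c_{j + 1}` is linear and injective, and
surjective: `exists_form_of_mem` (`L1/Eis.lean`), `ModularForm.toCuspForm`.
`hecke_int`: `hecke_q` (`MD/HeckeQ.lean`): the coefficient `m` of `T f` is `c(2 m) + 2 ^ (k - 1) c(m / 2)`.
For `f` with `qExpansion 1 f = bas ℂ k (j + 1)` (which is the image of `bas ℤ k (j + 1)`, `map_bas`) the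
expansion of `T f` is the image of `U 2 b + 2 ^ (k - 1) • V 2 b`, `b = bas ℤ k (j + 1)`, which is in `ML ℤ k`
(`form_descend` or `mem_ML_of_map`) with constant coefficient `0`, so a combination of the
`bas ℤ k (i + 1)` with integral coefficients `M i j`. Modulo `3`: `bas F3 k (j + 1) = D ^ (j + 1)`
(`map_bas`; `e4 = e6 = 1`: `240` and `504` are divisible by `3`; `dl F3 = D` by definition),
`2 ^ (k - 1) = -1` (`k` even), so
`U 2 (D ^ (j + 1)) - V 2 (D ^ (j + 1)) = ev (t2 (j + 1))` (`t2_q`) is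
`∑_i (M i j : F3) D ^ (i + 1)`; `ev_inj` and `t2_coeff` give the last statement.
(`k = 0`: `dd 0 = 1`, `n = 0`; a cusp form of weight `0` vanishes because its expansion is in `ML ℂ 0`.)
-/

namespace Pool.Agent.Lib.MP_06b9d2_nt.MU

open UpperHalfPlane Pool.Agent.L1
open scoped MatrixGroups ModularForm

/-- the `q`-expansion as a linear map -/
private noncomputable def qL (k : ℤ) : CuspForm 𝒮ℒ k →ₗ[ℂ] PowerSeries ℂ where
  toFun f := qExpansion 1 f
  map_add' f g := ModularForm.qExpansion_add one_pos one_mem_strictPeriods_SL f g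
  map_smul' c f := ModularForm.qExpansion_smul one_pos one_mem_strictPeriods_SL c f

private lemma qL_inj (k : ℤ) : Function.Injective (qL k) := by
  rw [← LinearMap.ker_eq_bot, LinearMap.ker_eq_bot']
  intro f hf
  have h1 : qExpansion 1 (CuspForm.toModularFormₗ f) = 0 := hf
  have h2 := (ModularForm.qExpansion_eq_zero_iff one_pos one_mem_strictPeriods_SL
    (CuspForm.toModularFormₗ f)).1 h1
  apply CuspForm.toModularFormₗ_injective
  rw [h2, map_zero]

private noncomputable def Psi (R : Type) [CommRing R] (k : ℕ) :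
    (Fin (dd k - 1) → R) →ₗ[R] PowerSeries R :=
  Fintype.linearCombination R (fun j : Fin (dd k - 1) => bas R k ((j : ℕ) + 1))

private lemma Psi_apply (R : Type) [CommRing R] (k : ℕ) (c : Fin (dd k - 1) → R) :
    Psi R k c = ∑ j, c j • bas R k ((j : ℕ) + 1) := by
  rw [Psi, Fintype.linearCombination_apply]

private lemma Psi_inj (R : Type) [CommRing R] (k : ℕ) : Function.Injective (Psi R k) := by
  rw [← LinearMap.ker_eq_bot, LinearMap.ker_eq_bot']
  intro c hc
  rw [Psi_apply] at hc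
  have h1 := (linearIndependent_bas (R := R) k).comp
    (fun j : Fin (dd k - 1) => (⟨(j : ℕ) + 1, by have := j.2; omega⟩ : Fin (dd k)))
    (by
      intro a b hab
      have h2 := congrArg Fin.val hab
      apply Fin.ext
      simpa using h2)
  rw [Fintype.linearIndependent_iff] at h1
  funext j
  exact h1 c hc j

private lemma Psi_mem (R : Type) [CommRing R] (k : ℕ) (c : Fin (dd k - 1) → R) :
    Psi R k c ∈ ML R k := by
  rw [Psi_apply]
  refine Submodule.sum_mem _ fun j _ => Submodule.smul_mem _ _ (Submodule.subset_span ?_)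
  exact ⟨⟨(j : ℕ) + 1, by have := j.2; omega⟩, rfl⟩

private lemma Psi_coeff (R : Type) [CommRing R] (k : ℕ) (c : Fin (dd k - 1) → R) :
    PowerSeries.coeff 0 (Psi R k c) = 0 := by
  rw [Psi_apply, map_sum]
  refine Finset.sum_eq_zero fun j _ => ?_
  rw [PowerSeries.coeff_smul, coeff_bas_lt (Nat.succ_pos _), smul_zero]

private lemma Psi_ex (R : Type) [CommRing R] (k : ℕ) {g : PowerSeries R} (hg : g ∈ ML R k)
    (h0 : PowerSeries.coeff 0 g = 0) : ∃ c : Fin (dd k - 1) → R, g = Psi R k c := by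
  obtain ⟨c, hc⟩ := mem_ML_iff.1 hg
  rcases Nat.eq_zero_or_pos (dd k) with hd | hd
  · refine ⟨0, ?_⟩
    rw [hc, map_zero]
    refine Finset.sum_eq_zero fun j hj => ?_
    rw [Finset.mem_range] at hj
    omega
  · refine ⟨fun j => c ((j : ℕ) + 1), ?_⟩
    have h1 : ∑ j ∈ Finset.range (dd k), c j • bas R k j =
        ∑ j ∈ Finset.range (dd k - 1), c (j + 1) • bas R k (j + 1) + c 0 • bas R k 0 := by
      rw [← Finset.sum_range_succ' (fun j => c j • bas R k j), Nat.sub_add_cancel hd]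
    have h2 : c 0 = 0 := by
      rw [hc, h1, map_add, map_sum, Finset.sum_eq_zero, zero_add, PowerSeries.coeff_smul,
        coeff_bas_self, smul_eq_mul, mul_one] at h0
      · exact h0
      · intro j _
        rw [PowerSeries.coeff_smul, coeff_bas_lt (Nat.succ_pos _), smul_zero]
    rw [hc, h1, h2, zero_smul, add_zero, Psi_apply]
    exact (Fin.sum_univ_eq_sum_range (fun j => c (j + 1) • bas R k (j + 1)) (dd k - 1)).symm

private lemma map_smul_ps {R S : Type} [CommRing R] [CommRing S] (φ : R →+* S) (r : R)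
    (f : PowerSeries R) : PowerSeries.map φ (r • f) = φ r • PowerSeries.map φ f := by
  ext n
  rw [PowerSeries.coeff_map, PowerSeries.coeff_smul, PowerSeries.coeff_smul,
    PowerSeries.coeff_map, smul_eq_mul, smul_eq_mul, map_mul]

private lemma Psi_map {S : Type} [CommRing S] (φ : ℤ →+* S) (k : ℕ)
    (c : Fin (dd k - 1) → ℤ) :
    PowerSeries.map φ (Psi ℤ k c) = Psi S k (fun j => φ (c j)) := by
  rw [Psi_apply, Psi_apply, map_sum]
  refine Finset.sum_congr rfl fun j _ => ?_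
  rw [map_smul_ps, map_bas]

private lemma map_U {R S : Type} [CommRing R] [CommRing S] (φ : R →+* S) (p : ℕ)
    (f : PowerSeries R) : PowerSeries.map φ (U p f) = U p (PowerSeries.map φ f) := by
  ext n
  rw [PowerSeries.coeff_map, U, U, PowerSeries.coeff_mk, PowerSeries.coeff_mk,
    PowerSeries.coeff_map]

private lemma map_V {R S : Type} [CommRing R] [CommRing S] (φ : R →+* S) (p : ℕ)
    (f : PowerSeries R) : PowerSeries.map φ (V p f) = V p (PowerSeries.map φ f) := by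
  ext n
  rw [PowerSeries.coeff_map, V, V, PowerSeries.coeff_mk, PowerSeries.coeff_mk]
  split_ifs
  · rw [PowerSeries.coeff_map]
  · rw [map_zero]

theorem Phi_ex (k : ℕ) : ∃ Φ : CuspForm 𝒮ℒ (k : ℤ) →ₗ[ℂ] (Fin (dd k - 1) → ℂ),
    Function.Bijective Φ ∧ ∀ f : CuspForm 𝒮ℒ (k : ℤ), qExpansion 1 f =
      ∑ j, Φ f j • bas ℂ k ((j : ℕ) + 1) := by
  have hmem : ∀ f : CuspForm 𝒮ℒ (k : ℤ), qL k f ∈ LinearMap.range (Psi ℂ k) := by
    intro f
    have h1 : qExpansion 1 (CuspForm.toModularFormₗ f) ∈ ML ℂ k :=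
      form_mem_ML k k rfl (CuspForm.toModularFormₗ f)
    have h2 : PowerSeries.coeff 0 (qL k f) = 0 :=
      CuspFormClass.qExpansion_coeff_zero f one_pos one_mem_strictPeriods_SL
    obtain ⟨c, hc⟩ := Psi_ex ℂ k (g := qL k f) h1 h2
    exact ⟨c, hc.symm⟩
  obtain ⟨e, he⟩ : ∃ e : (Fin (dd k - 1) → ℂ) ≃ₗ[ℂ] LinearMap.range (Psi ℂ k),
      ∀ c, (e c : PowerSeries ℂ) = Psi ℂ k c :=
    ⟨LinearEquiv.ofInjective (Psi ℂ k) (Psi_inj ℂ k), fun c => rfl⟩
  obtain ⟨Φ, hΦ⟩ : ∃ Φ : CuspForm 𝒮ℒ (k : ℤ) →ₗ[ℂ] (Fin (dd k - 1) → ℂ),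
      ∀ f, Psi ℂ k (Φ f) = qL k f := by
    refine ⟨e.symm.toLinearMap ∘ₗ (qL k).codRestrict (LinearMap.range (Psi ℂ k)) hmem, ?_⟩
    intro f
    rw [← he, LinearMap.comp_apply, LinearEquiv.coe_coe, LinearEquiv.apply_symm_apply]
    rfl
  refine ⟨Φ, ⟨?_, ?_⟩, ?_⟩
  · intro f g hfg
    apply qL_inj k
    rw [← hΦ, ← hΦ, hfg]
  · intro c
    obtain ⟨F, hF⟩ := exists_form_of_mem (Psi_mem ℂ k c) k rfl
    have h0 : (qExpansion 1 F).coeff 0 = 0 := by
      rw [hF]
      exact Psi_coeff ℂ k c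
    refine ⟨ModularForm.toCuspForm F h0, ?_⟩
    apply Psi_inj ℂ k
    rw [hΦ, ← hF]
    rfl
  · intro f
    rw [← Psi_apply, hΦ]
    rfl

private lemma bas_F3 (k j : ℕ) : bas F3 k j = D ^ j := by
  have h4 : e4 F3 = 1 := by
    ext n
    rw [e4, PowerSeries.coeff_map, coeff_E4z, PowerSeries.coeff_one]
    have h3 : (Int.castRingHom F3) 240 = 0 := by decide
    split_ifs
    · rw [map_one]
    · rw [map_mul, h3, zero_mul]
  have h6 : e6 F3 = 1 := by
    ext n
    rw [e6, PowerSeries.coeff_map, coeff_E6z, PowerSeries.coeff_one]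
    have h3 : (Int.castRingHom F3) (-504) = 0 := by decide
    split_ifs
    · rw [map_one]
    · rw [map_mul, h3, zero_mul]
  rw [bas, h4, h6, one_pow, one_pow, mul_one, mul_one]
  rfl

theorem Mtx (k : ℕ) (hk : Even k) (T : CuspForm 𝒮ℒ (k : ℤ) →ₗ[ℂ] CuspForm 𝒮ℒ (k : ℤ))
    (hT : IsHecke (k : ℤ) 2 T) : ∃ (M : Matrix (Fin (dd k - 1)) (Fin (dd k - 1)) ℤ)
      (Φ : CuspForm 𝒮ℒ (k : ℤ) →ₗ[ℂ] (Fin (dd k - 1) → ℂ)), Function.Bijective Φ ∧
      (∀ f, Φ (T f) = (M.map (Int.cast : ℤ → ℂ)).mulVec (Φ f)) ∧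
      ∀ i j, ((M i j : ℤ) : F3) = (t2 ((j : ℕ) + 1)).coeff ((i : ℕ) + 1) := by
  obtain ⟨Φ, hΦ, hq⟩ := Phi_ex k
  have hq' : ∀ f : CuspForm 𝒮ℒ (k : ℤ), qExpansion 1 f = Psi ℂ k (Φ f) := by
    intro f
    rw [hq, Psi_apply]
  have hk12 : ∀ _ : Fin (dd k - 1), 12 ≤ k := by
    intro j
    have h1 := j.2
    have h2 := dd_le k
    omega
  have hTf : ∀ (j : Fin (dd k - 1)) (f : CuspForm 𝒮ℒ (k : ℤ)), Φ f = Pi.single j 1 →
      PowerSeries.map (Int.castRingHom ℂ) (U 2 (bas ℤ k ((j : ℕ) + 1)) +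
        PowerSeries.C ((2 : ℤ) ^ (k - 1)) * V 2 (bas ℤ k ((j : ℕ) + 1))) = qExpansion 1 (T f) := by
    intro j f hf
    have hkj := hk12 j
    have hqf : qExpansion 1 f = bas ℂ k ((j : ℕ) + 1) := by
      rw [hq, hf, Finset.sum_eq_single j]
      · rw [Pi.single_eq_same, one_smul]
      · intro i _ hi
        rw [Pi.single_eq_of_ne hi, zero_smul]
      · intro h
        exact absurd (Finset.mem_univ j) h
    have h2 : (2 : ℂ) ^ ((k : ℤ) - 1) = (2 : ℂ) ^ (k - 1) := by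
      have h3 : (k : ℤ) - 1 = ((k - 1 : ℕ) : ℤ) := by omega
      rw [h3, zpow_natCast]
    ext m
    rw [hecke_q hT f m, hqf, map_add, map_mul, PowerSeries.map_C, map_U, map_V, map_bas, map_add,
      PowerSeries.coeff_C_mul, U, V, PowerSeries.coeff_mk, PowerSeries.coeff_mk, h2, map_pow,
      map_ofNat]
  have hW : ∀ j : Fin (dd k - 1), ∃ c : Fin (dd k - 1) → ℤ,
      U 2 (bas ℤ k ((j : ℕ) + 1)) + PowerSeries.C ((2 : ℤ) ^ (k - 1)) * V 2 (bas ℤ k ((j : ℕ) + 1)) =
        Psi ℤ k c := by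
    intro j
    obtain ⟨f, hf⟩ := hΦ.2 (Pi.single j 1)
    apply Psi_ex
    · exact form_descend (Int.castRingHom ℂ) Int.cast_injective
        (CuspForm.toModularFormₗ (T f)) (hTf j f hf)
    · rw [map_add, PowerSeries.coeff_C_mul, U, V, PowerSeries.coeff_mk, PowerSeries.coeff_mk,
        Nat.mul_zero, Nat.zero_div, if_pos (dvd_zero 2), coeff_bas_lt (Nat.succ_pos _), mul_zero,
        add_zero]
  choose c hc using hW
  refine ⟨Matrix.of fun i j => c j i, Φ, hΦ, ?_, ?_⟩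
  · obtain ⟨e, he⟩ : ∃ e : CuspForm 𝒮ℒ (k : ℤ) ≃ₗ[ℂ] (Fin (dd k - 1) → ℂ), ∀ f, e f = Φ f :=
      ⟨LinearEquiv.ofBijective Φ hΦ, fun _ => rfl⟩
    have hlin : Φ ∘ₗ T ∘ₗ e.symm.toLinearMap =
        Matrix.toLin' ((Matrix.of fun i j => c j i).map (Int.cast : ℤ → ℂ)) := by
      apply (Pi.basisFun ℂ (Fin (dd k - 1))).ext
      intro j
      rw [Pi.basisFun_apply, LinearMap.comp_apply, LinearMap.comp_apply, LinearEquiv.coe_coe,
        Matrix.toLin'_apply, Matrix.mulVec_single_one]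
      have hf : Φ (e.symm (Pi.single j 1)) = Pi.single j 1 := by
        rw [← he, LinearEquiv.apply_symm_apply]
      apply Psi_inj ℂ k
      rw [← hq', ← hTf j _ hf, hc, Psi_map]
      rfl
    intro f
    have h1 := LinearMap.congr_fun hlin (e f)
    rw [LinearMap.comp_apply, LinearMap.comp_apply, LinearEquiv.coe_coe,
      LinearEquiv.symm_apply_apply, Matrix.toLin'_apply, he] at h1
    exact h1
  · intro i j
    have hkj := hk12 j
    have h1 := congrArg (PowerSeries.map (Int.castRingHom F3)) (hc j)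
    have h2 : (Int.castRingHom F3) ((2 : ℤ) ^ (k - 1)) = -1 := by
      have hodd : Odd (k - 1) := by
        obtain ⟨m, hm⟩ := hk
        exact ⟨m - 1, by omega⟩
      have h3 : (Int.castRingHom F3) 2 = -1 := by decide
      rw [map_pow, h3, hodd.neg_one_pow]
    rw [map_add, map_mul, PowerSeries.map_C, map_U, map_V, map_bas, bas_F3, h2, map_neg, map_one,
      neg_one_mul, ← sub_eq_add_neg, ← t2_q, Psi_map, Psi_apply] at h1
    have h4 : ev (∑ l : Fin (dd k - 1), Polynomial.C ((c j l : ℤ) : F3) * Polynomial.X ^ ((l : ℕ) + 1)) =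
        ∑ l : Fin (dd k - 1), (Int.castRingHom F3) (c j l) • bas F3 k ((l : ℕ) + 1) := by
      rw [map_sum]
      refine Finset.sum_congr rfl fun l _ => ?_
      rw [bas_F3, ev, map_mul, map_pow, Polynomial.aeval_C, Polynomial.aeval_X, Algebra.smul_def]
      rfl
    rw [← h4] at h1
    have h5 := ev_inj h1
    rw [h5, Polynomial.finsetSum_coeff, Finset.sum_eq_single i]
    · rw [Polynomial.coeff_C_mul_X_pow, if_pos rfl]
      rfl
    · intro l _ hl
      rw [Polynomial.coeff_C_mul_X_pow, if_neg]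
      intro h6
      apply hl
      apply Fin.ext
      omega
    · intro h
      exact absurd (Finset.mem_univ i) h

end Pool.Agent.Lib.MP_06b9d2_nt.MU
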