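import Mathlib
import Pool.Agent.Lib.L1.Delta
import Pool.Agent.Lib.MP_06b9d2_nt.MD.Defs

/-!
MU (MP_06b9d2_nt, Maeda, multiplicities of the eigenvalues of `T_2`): definitions.

Everything is modulo `3`. `D` is the `q`-expansion of the discriminant modulo `3`, `ev` the evaluation
`y ↦ D` (the variable of the polynomials is `y = X`). `U p`, `V p` are the usual operators on power
series.
-/

namespace Pool.Agent.Lib.MP_06b9d2_nt.MU

open Polynomial LaurentPolynomial

/-- the field with three elements -/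
abbrev F3 : Type := ZMod 3

/-- the operator `U_p` -/
noncomputable def U {R : Type*} [CommRing R] (p : ℕ) (f : PowerSeries R) : PowerSeries R :=
  PowerSeries.mk fun n => PowerSeries.coeff (p * n) f

/-- the operator `V_p`: `f(q ^ p)` -/
noncomputable def V {R : Type*} [CommRing R] (p : ℕ) (f : PowerSeries R) : PowerSeries R :=
  PowerSeries.mk fun n => if p ∣ n then PowerSeries.coeff (n / p) f else 0

/-- the discriminant modulo `3` -/
noncomputable def D : PowerSeries F3 := PowerSeries.map (Int.castRingHom F3) Pool.Agent.L1.Delz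

/-- the evaluation `y ↦ D` -/
noncomputable def ev : F3[X] →ₐ[F3] PowerSeries F3 := Polynomial.aeval D

/-- the linear map with `y ^ n ↦ s n` -/
noncomputable def lin {M : Type*} [AddCommGroup M] [Module F3 M] (s : ℕ → M) : F3[X] →ₗ[F3] M :=
  (Polynomial.basisMonomials F3).constr F3 s

/-- `T_2 (y ^ n)` -/
noncomputable def t2 : ℕ → F3[X]
  | 0 => 0
  | 1 => 0
  | 2 => X
  | (n + 3) => X * t2 (n + 1) - X ^ 3 * t2 n

/-- the operator `T_2` on polynomials in `y` -/
noncomputable def T2 : F3[X] →ₗ[F3] F3[X] := lin t2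

/-- the coefficient of `Y` in `Y ^ n` modulo `Y ^ 3 = X Y - X ^ 3` -/
noncomputable def b2 : ℕ → F3[X]
  | 0 => 0
  | 1 => 1
  | 2 => 0
  | (n + 3) => X * b2 (n + 1) - X ^ 3 * b2 n

/-- the linear map with `y ^ n ↦ b2 n` -/
noncomputable def B2 : F3[X] →ₗ[F3] F3[X] := lin b2

/-- all exponents of `F` are congruent to `r` modulo `3` -/
def Ex (r : ℕ) (F : F3[X]) : Prop := ∀ n, F.coeff n ≠ 0 → n % 3 = r

/-- all exponents of `f` are congruent to `r` modulo `3` -/
def ExS (r : ℕ) (f : PowerSeries F3) : Prop := ∀ n, PowerSeries.coeff n f ≠ 0 → n % 3 = r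

/-- the kernel of `T_2` on the polynomials all of whose exponents are congruent to `1` modulo `3` -/
noncomputable def CC : Submodule F3 F3[X] where
  carrier := {F | T2 F = 0 ∧ Ex 1 F}
  zero_mem' := ⟨map_zero _, fun n h => absurd (coeff_zero n) h⟩
  add_mem' := by
    rintro F G ⟨h1, h2⟩ ⟨h3, h4⟩
    refine ⟨by rw [map_add, h1, h3, add_zero], fun n hn => ?_⟩
    by_contra hc
    apply hn
    rw [coeff_add]
    rw [not_imp_comm.1 (h2 n) hc, not_imp_comm.1 (h4 n) hc, add_zero]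
  smul_mem' := by
    rintro c F ⟨h1, h2⟩
    refine ⟨by rw [map_smul, h1, smul_zero], fun n hn => h2 n fun h => hn ?_⟩
    rw [coeff_smul, h, smul_zero]

/-- the kernel of `T_2` on the polynomials of degree at most `N` without constant term -/
noncomputable def KN (N : ℕ) : Submodule F3 F3[X] where
  carrier := {F | T2 F = 0 ∧ F.coeff 0 = 0 ∧ ∀ n, N < n → F.coeff n = 0}
  zero_mem' := ⟨map_zero _, coeff_zero 0, fun n _ => coeff_zero n⟩
  add_mem' := by
    rintro F G ⟨h1, h2, h3⟩ ⟨h4, h5, h6⟩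
    refine ⟨by rw [map_add, h1, h4, add_zero], by rw [coeff_add, h2, h5, add_zero], fun n hn => ?_⟩
    rw [coeff_add, h3 n hn, h6 n hn, add_zero]
  smul_mem' := by
    rintro c F ⟨h1, h2, h3⟩
    refine ⟨by rw [map_smul, h1, smul_zero], by rw [coeff_smul, h2, smul_zero], fun n hn => ?_⟩
    rw [coeff_smul, h3 n hn, smul_zero]

/-- the natural numbers with all digits in base `9` in `{0, 1, 3}` -/
inductive Dp : ℕ → Prop
  | zero : Dp 0
  | step (d e : ℕ) : Dp d → (e = 0 ∨ e = 1 ∨ e = 3) → Dp (9 * d + e)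

/-- the sum over the six roots of `s x ^ n` (see `paper`) -/
noncomputable def sg : ℕ → F3[X]
  | 0 => 0
  | 1 => 0
  | 2 => X
  | 3 => X
  | 4 => -X
  | 5 => X ^ 2 + X ^ 3 - X ^ 4
  | (n + 6) => -(X * sg (n + 4)) + X ^ 3 * sg (n + 3) - X ^ 2 * sg (n + 2) -
      (X ^ 4 - X) * sg (n + 1) - X ^ 6 * sg n

/-- the linear map with `y ^ n ↦ sg n` -/
noncomputable def Sg : F3[X] →ₗ[F3] F3[X] := lin sg

/-- the sum over the six roots of `x ^ n` -/
noncomputable def t5 : ℕ → F3[X]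
  | 0 => 0
  | 1 => 0
  | 2 => X
  | 3 => 0
  | 4 => X ^ 2
  | 5 => -X ^ 4 - X
  | (n + 6) => -(X * t5 (n + 4)) + X ^ 3 * t5 (n + 3) - X ^ 2 * t5 (n + 2) -
      (X ^ 4 - X) * t5 (n + 1) - X ^ 6 * t5 n

/-- the sequence `h_i` of Laurent polynomials -/
noncomputable def hh : ℕ → F3[T;T⁻¹]
  | 0 => 0
  | 1 => -T (-1)
  | 2 => T (-1)
  | 3 => T (-1)
  | 4 => 0
  | 5 => T (-1)
  | (i + 6) => -hh (i + 3) + T (-1) * hh (i + 1) + hh i

/-- the linear map with `y ^ n ↦ T ^ (n + 1) h_{4 n + m}` -/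
noncomputable def lam (m : ℕ) : F3[X] →ₗ[F3] F3[T;T⁻¹] :=
  lin fun n => T ((n : ℤ) + 1) * hh (4 * n + m)

/-- `3 ^ (2 i + 1)` -/
def qi (i : ℕ) : ℕ := 3 ^ (2 * i + 1)

/-- `(3 ^ (2 i + 2) - 1) / 8` -/
def Ni (i : ℕ) : ℕ := (3 * qi i - 1) / 8

/-- `X + X ^ 3 + ⋯ + X ^ (q / 3)`, `q = qi i` -/
noncomputable def Sp (i : ℕ) : F3[X] := ∑ l ∈ Finset.range (2 * i + 1), X ^ 3 ^ l

/-- the polynomials `P_q` -/
noncomputable def Pp : ℕ → F3[X]
  | 0 => 0
  | (i + 1) => X ^ (6 * qi i) * Sp i - X ^ (5 * qi i) * Pp i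

/-- `α_m` at the scale `q = qi i` -/
noncomputable def al (i m : ℕ) : F3[T;T⁻¹] := lam (qi i * m) (X ^ Ni i)

/-- `β_m` at the scale `q = qi i` -/
noncomputable def be (i m : ℕ) : F3[T;T⁻¹] := lam (qi i * m) (X ^ Ni i * Sp i)

/-- `π_m` at the scale `q = qi i` -/
noncomputable def pp (i m : ℕ) : F3[T;T⁻¹] := lam (qi i * m) (X ^ Ni i * Pp i)

/-- the Laurent polynomials of degree at most `r` -/
def DL (r : ℤ) : Submodule F3 F3[T;T⁻¹] where
  carrier := {f | ∀ k, r < k → f.coeff k = 0}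
  zero_mem' := fun _ _ => rfl
  add_mem' := by
    intro f g hf hg k hk
    rw [AddMonoidAlgebra.coeff_add, Finsupp.add_apply, hf k hk, hg k hk, add_zero]
  smul_mem' := by
    intro c f hf k hk
    rw [AddMonoidAlgebra.coeff_smul, Finsupp.smul_apply, hf k hk, smul_zero]

/-- the test polynomials `G_m` at the scale `q = qi i` -/
noncomputable def Gt (i m : ℕ) : F3[X] :=
  if m = 8 then X ^ (2 * qi i) + X ^ qi i * Sp i + Pp i
  else if m = 5 then X ^ (3 * qi i) * (X ^ (2 * qi i) + X ^ qi i * Sp i + Pp i)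
  else if m = 2 then X ^ (6 * qi i) * (X ^ (2 * qi i) + X ^ qi i * Sp i + Pp i)
  else if m = 7 then X ^ (4 * qi i) + X ^ (3 * qi i) * Sp i + X ^ (2 * qi i) * Sp i - X ^ qi i * Pp i
  else if m = 6 then X ^ (6 * qi i) - X ^ (3 * qi i) * Sp i + X ^ (2 * qi i) * Pp i
  else X ^ (7 * qi i) + X ^ (6 * qi i) * Sp i - X ^ (5 * qi i) * Sp i + X ^ (4 * qi i) * Pp i

/-- the degree of `G_m` in units of `q` -/
def dt (m : ℕ) : ℕ :=
  if m = 8 then 2 else if m = 5 then 5 else if m = 2 then 8 else if m = 7 then 4 else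
    if m = 6 then 6 else 7

end Pool.Agent.Lib.MP_06b9d2_nt.MU
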