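import Pool.Agent.Lib.MP_06b9d2_nt.MU.Rt

/-!
Module MU-ExB. Exponents modulo `3`, injectivity of `ev`.

`ExS_mul`: a nonzero coefficient of the product comes from a pair of nonzero coefficients
(`PowerSeries.coeff_mul`, `Finset.exists_ne_zero_of_sum_ne_zero`). `ExS_U`: if the coefficient `p n` of
`f` is not zero then `p n ≡ r`, so `n ≡ p r` because `p ^ 2 ≡ 1` modulo `3`.
`D_ExS`: `D = X * V 3 W` (`D_form`). `ev_ExS`: `ev F = ∑ F.coeff n • D ^ n` and `D ^ n` has exponents
`≡ n`. `ev_inj`: if `F ≠ 0` and `m` is minimal with `F.coeff m ≠ 0` (`Polynomial.natTrailingDegree`),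
then the coefficient `m` of `ev F` is `F.coeff m` (`coeff_D_pow_lt`, `coeff_D_pow_self`).
`Ex_of_ev`: write `F = F₀ + F₁ + F₂` by the exponents modulo `3` (`exists_split`); if `i ≠ r`, `ev Fᵢ` is
the part of `ev F` with exponents `≡ i`, which is `0`; `ev_inj`.
`exists_cube`: if `Ex 0 F` then `F = G(y ^ 3)` (`Polynomial.expand`, `Polynomial.contract`), and
`G(y ^ 3) = G ^ 3` (`ZMod.expand_card`).
`ev_V`: `V_aeval`.
-/

namespace Pool.Agent.Lib.MP_06b9d2_nt.MU

open Polynomial LaurentPolynomial

theorem ExS_add (r : ℕ) (f g : PowerSeries F3) (hf : ExS r f) (hg : ExS r g) : ExS r (f + g) := by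
  intro n hn
  by_contra hc
  apply hn
  have h1 : PowerSeries.coeff n f = 0 := by
    by_contra h
    exact hc (hf n h)
  have h2 : PowerSeries.coeff n g = 0 := by
    by_contra h
    exact hc (hg n h)
  rw [map_add, h1, h2, add_zero]

theorem ExS_neg (r : ℕ) (f : PowerSeries F3) (hf : ExS r f) : ExS r (-f) := by
  intro n hn
  apply hf n
  intro h
  apply hn
  rw [map_neg, h, neg_zero]

theorem ExS_mul (r s : ℕ) (f g : PowerSeries F3) (hf : ExS r f) (hg : ExS s g) :
    ExS ((r + s) % 3) (f * g) := by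
  intro n hn
  rw [PowerSeries.coeff_mul] at hn
  obtain ⟨ab, hab, hne⟩ := Finset.exists_ne_zero_of_sum_ne_zero hn
  have hab' : ab.1 + ab.2 = n := Finset.HasAntidiagonal.mem_antidiagonal.1 hab
  have h1 := hf _ (left_ne_zero_of_mul hne)
  have h2 := hg _ (right_ne_zero_of_mul hne)
  omega

theorem ExS_V (p r : ℕ) (f : PowerSeries F3) (hf : ExS r f) : ExS (p * r % 3) (V p f) := by
  intro n hn
  rw [coeff_V] at hn
  by_cases hp : p ∣ n
  · rw [if_pos hp] at hn
    have h1 := hf _ hn
    obtain ⟨k, rfl⟩ := hp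
    rcases Nat.eq_zero_or_pos p with h0 | h0
    · subst h0
      simp
    · rw [Nat.mul_div_cancel_left k h0] at h1
      rw [Nat.mul_mod p k, Nat.mul_mod p r, h1]
      have h2 : r % 3 = r := by
        rw [← h1]
        exact Nat.mod_mod k 3
      rw [h2]
  · rw [if_neg hp] at hn
    exact absurd rfl hn

theorem ExS_U (p r : ℕ) (hp : p % 3 ≠ 0) (f : PowerSeries F3) (hf : ExS r f) :
    ExS (p * r % 3) (U p f) := by
  intro n hn
  rw [coeff_U] at hn
  have h1 := hf _ hn
  rw [Nat.mul_mod] at h1
  rw [Nat.mul_mod p r, ← h1]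
  have hp3 : p % 3 < 3 := Nat.mod_lt _ (by norm_num)
  have hn3 : n % 3 < 3 := Nat.mod_lt _ (by norm_num)
  generalize p % 3 = a at *
  generalize n % 3 = b at *
  interval_cases a
  · exact absurd rfl hp
  · interval_cases b <;> rfl
  · interval_cases b <;> rfl

/-- two series with different exponents modulo `3` and equal are `0` -/
theorem ExS_eq_zero (r s : ℕ) (hrs : r ≠ s) (f : PowerSeries F3) (hf : ExS r f) (hg : ExS s f) :
    f = 0 := by
  ext n
  rw [map_zero]
  by_contra h
  exact hrs ((hf n h).symm.trans (hg n h))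

theorem D_ExS : ExS 1 D := by
  obtain ⟨W, -, hW⟩ := D_form
  intro n hn
  rw [hW] at hn
  rcases n with _ | n
  · rw [PowerSeries.coeff_zero_X_mul] at hn
    exact absurd rfl hn
  · rw [PowerSeries.coeff_succ_X_mul, coeff_V] at hn
    by_cases h3 : 3 ∣ n
    · omega
    · rw [if_neg h3] at hn
      exact absurd rfl hn

theorem D_pow_ExS (n : ℕ) : ExS (n % 3) (D ^ n) := by
  induction n with
  | zero =>
    intro m hm
    rw [pow_zero, PowerSeries.coeff_one] at hm
    by_cases h0 : m = 0
    · rw [h0]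
    · rw [if_neg h0] at hm
      exact absurd rfl hm
  | succ n ih =>
    have h1 := ExS_mul (n % 3) 1 (D ^ n) D ih D_ExS
    rw [← pow_succ] at h1
    have h2 : (n % 3 + 1) % 3 = (n + 1) % 3 := by omega
    rwa [h2] at h1

private theorem coeff_ev (F : F3[X]) (m : ℕ) : PowerSeries.coeff m (ev F) =
    ∑ i ∈ Finset.range (F.natDegree + 1), F.coeff i * PowerSeries.coeff m (D ^ i) := by
  have h : ev F = ∑ i ∈ Finset.range (F.natDegree + 1), F.coeff i • D ^ i :=
    Polynomial.aeval_eq_sum_range D
  rw [h, map_sum]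
  refine Finset.sum_congr rfl fun i _ => ?_
  rw [PowerSeries.coeff_smul, smul_eq_mul]

theorem ev_ExS (r : ℕ) (F : F3[X]) (hF : Ex r F) : ExS r (ev F) := by
  intro n hn
  rw [coeff_ev] at hn
  obtain ⟨i, -, hne⟩ := Finset.exists_ne_zero_of_sum_ne_zero hn
  have h1 := hF _ (left_ne_zero_of_mul hne)
  have h2 := D_pow_ExS i _ (right_ne_zero_of_mul hne)
  rw [h2, h1]

private theorem ev_ker (F : F3[X]) (h : ev F = 0) : F = 0 := by
  by_contra hF
  have h1 : PowerSeries.coeff F.natTrailingDegree (ev F) = 0 := by rw [h, map_zero]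
  rw [coeff_ev, Finset.sum_eq_single F.natTrailingDegree] at h1
  · rw [coeff_D_pow_self, mul_one] at h1
    exact hF (Polynomial.trailingCoeff_eq_zero.1 h1)
  · intro i _ hi
    rcases lt_or_gt_of_ne hi with hlt | hgt
    · rw [Polynomial.coeff_eq_zero_of_lt_natTrailingDegree hlt, zero_mul]
    · rw [coeff_D_pow_lt i _ hgt, mul_zero]
  · intro hm
    exfalso
    apply hm
    rw [Finset.mem_range]
    exact Nat.lt_succ_of_le F.natTrailingDegree_le_natDegree

theorem ev_inj : Function.Injective ev := by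
  intro F G h
  have h1 : ev (F - G) = 0 := by rw [map_sub, h, sub_self]
  exact sub_eq_zero.1 (ev_ker _ h1)

private theorem part_coeff (F : F3[X]) (r n : ℕ) :
    (∑ i ∈ F.support, if i % 3 = r then Polynomial.monomial i (F.coeff i) else 0).coeff n =
      if n % 3 = r then F.coeff n else 0 := by
  rw [Polynomial.finset_sum_coeff]
  by_cases hn : n ∈ F.support
  · rw [Finset.sum_eq_single n]
    · by_cases h : n % 3 = r
      · rw [if_pos h, if_pos h, Polynomial.coeff_monomial_same]
      · rw [if_neg h, if_neg h, Polynomial.coeff_zero]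
    · intro i _ hi
      by_cases h : i % 3 = r
      · rw [if_pos h, Polynomial.coeff_monomial_of_ne _ (Ne.symm hi)]
      · rw [if_neg h, Polynomial.coeff_zero]
    · intro h
      exact absurd hn h
  · have h0 : F.coeff n = 0 := Polynomial.notMem_support_iff.1 hn
    rw [h0, ite_self]
    refine Finset.sum_eq_zero fun i hi => ?_
    have hin : n ≠ i := fun e => hn (e ▸ hi)
    by_cases h : i % 3 = r
    · rw [if_pos h, Polynomial.coeff_monomial_of_ne _ hin]
    · rw [if_neg h, Polynomial.coeff_zero]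

theorem exists_split (F : F3[X]) : ∃ G : ℕ → F3[X], F = G 0 + G 1 + G 2 ∧
    (∀ r, r < 3 → Ex r (G r)) ∧
    (∀ r n, r < 3 → (G r).coeff n = if n % 3 = r then F.coeff n else 0) := by
  refine ⟨fun r => ∑ i ∈ F.support, if i % 3 = r then Polynomial.monomial i (F.coeff i) else 0,
    ?_, ?_, fun r n _ => part_coeff F r n⟩
  · ext n
    rw [Polynomial.coeff_add, Polynomial.coeff_add, part_coeff, part_coeff, part_coeff]
    have hn3 : n % 3 < 3 := Nat.mod_lt _ (by norm_num)
    generalize n % 3 = b at *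
    interval_cases b <;> simp
  · intro r _ n hn
    rw [part_coeff] at hn
    by_contra h
    rw [if_neg h] at hn
    exact hn rfl

theorem Ex_of_ev (r : ℕ) (hr : r < 3) (F : F3[X]) (h : ExS r (ev F)) : Ex r F := by
  obtain ⟨G, hG, hE, hc⟩ := exists_split F
  have hr' := hr
  -- the parts with exponents different from `r` vanish
  have hz : ∀ j, j < 3 → j ≠ r → G j = 0 := by
    intro j hj hjr
    apply ev_ker
    ext n
    rw [map_zero]
    by_contra hne
    have hnj : n % 3 = j := ev_ExS j (G j) (hE j hj) n hne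
    have h0 : PowerSeries.coeff n (ev F) = 0 := by
      by_contra hne2
      exact hjr (hnj.symm.trans (h n hne2))
    have hoth : ∀ i, i < 3 → i ≠ j → PowerSeries.coeff n (ev (G i)) = 0 := by
      intro i hi hij
      by_contra hne2
      exact hij ((ev_ExS i (G i) (hE i hi) n hne2).symm.trans hnj)
    have hsum : PowerSeries.coeff n (ev (G 0)) + PowerSeries.coeff n (ev (G 1)) +
        PowerSeries.coeff n (ev (G 2)) = 0 := by
      rw [← map_add, ← map_add, ← map_add, ← map_add, ← hG, h0]
    apply hne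
    have hj' := hj
    interval_cases j
    · rwa [hoth 1 (by norm_num) (by norm_num), hoth 2 (by norm_num) (by norm_num), add_zero,
        add_zero] at hsum
    · rwa [hoth 0 (by norm_num) (by norm_num), hoth 2 (by norm_num) (by norm_num), add_zero,
        zero_add] at hsum
    · rwa [hoth 0 (by norm_num) (by norm_num), hoth 1 (by norm_num) (by norm_num), zero_add,
        zero_add] at hsum
  intro n hn
  by_contra hne
  have h1 := hc (n % 3) n (Nat.mod_lt _ (by norm_num))
  rw [if_pos rfl, hz (n % 3) (Nat.mod_lt _ (by norm_num)) hne, Polynomial.coeff_zero] at h1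
  exact hn h1.symm

theorem exists_cube (F : F3[X]) (hF : Ex 0 F) : ∃ G : F3[X], F = G ^ 3 ∧
    ∀ n, F.coeff (3 * n) = G.coeff n := by
  have : Fact (Nat.Prime 3) := ⟨Nat.prime_three⟩
  refine ⟨Polynomial.contract 3 F, ?_, ?_⟩
  · rw [← ZMod.expand_card]
    ext n
    rw [Polynomial.coeff_expand (by norm_num)]
    by_cases h : 3 ∣ n
    · rw [if_pos h, Polynomial.coeff_contract (by norm_num), Nat.div_mul_cancel h]
    · rw [if_neg h]
      by_contra hne
      exact h (Nat.dvd_of_mod_eq_zero (hF n hne))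
  · intro n
    rw [Polynomial.coeff_contract (by norm_num), mul_comm]

theorem ev_V (p : ℕ) (hp : 0 < p) (F : F3[X]) : V p (ev F) = Polynomial.aeval (V p D) F :=
  V_aeval p hp D F

/-- `F ^ 3` has the exponents `3 n` -/
theorem coeff_cube (F : F3[X]) (n : ℕ) :
    (F ^ 3).coeff n = if 3 ∣ n then F.coeff (n / 3) else 0 := by
  have : Fact (Nat.Prime 3) := ⟨Nat.prime_three⟩
  rw [← ZMod.expand_card, Polynomial.coeff_expand (by norm_num)]

end Pool.Agent.Lib.MP_06b9d2_nt.MU
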