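import Pool.Agent.Lib.MP_06b9d2_nt.MU.TrR
import Pool.Agent.Lib.MP_06b9d2_nt.MU.ExB

/-!
Module MU-ET. A criterion for symmetric relations between `D` and `V p D`.

Let `E = ∑ ev (c i) (V p D) ^ i`. By the symmetry also `E = ∑ V p (ev (c i)) D ^ i`
(`ev (c i) = ∑_j (c i).coeff j • D ^ j` with `j ≤ d - i ≤ d`, `V_aeval`/`ev_V`, exchange the sums).
Let `t n` be the polynomial of `TRgen p hp h3 n` and `r n = ∑ c i * t (n + i)`: then
`ev (r n) = (V p D) ^ n E + p U p (D ^ n E)` (`U_V_mul`, `V_pow`), and `natDegree (r n) ≤ n + d`.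
Suppose `E ≠ 0` with order `e` (the first nonzero coefficient), so `e > (p - 1) ^ 2 + p d`. Choose
`n ≤ p - 1` with `p ∣ n + e`. `D ^ n E` has its first nonzero coefficient at `n + e`, so `U p (D ^ n E)`
at `(n + e) / p`, and `(n + e) / p < p n + e` (`e > 0`), so the coefficient of `ev (r n)` at
`(n + e) / p` is not zero (`(p : F3) ≠ 0`) and the smaller ones are zero. But for a polynomial `R` of
degree `≤ n + d` all of whose `ev R` coefficients up to `n + d` vanish, `R = 0` (smallest exponent,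
`coeff_D_pow_lt`, `coeff_D_pow_self`). So `(n + e) / p ≤ n + d`, `e ≤ (p - 1) n + p d`, a contradiction.
-/

namespace Pool.Agent.Lib.MP_06b9d2_nt.MU

open Polynomial LaurentPolynomial

private theorem et_ev (R : F3[X]) (N : ℕ) (hR : R.natDegree ≤ N) :
    ev R = ∑ n ∈ Finset.range (N + 1), R.coeff n • D ^ n := by
  unfold ev
  rw [Polynomial.aeval_eq_sum_range' (by omega : R.natDegree < N + 1)]

private theorem et_coeff (R : F3[X]) (m : ℕ) (h : ∀ n, n < m → R.coeff n = 0) :
    PowerSeries.coeff m (ev R) = R.coeff m := by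
  rw [et_ev R (max R.natDegree m) (le_max_left _ _), map_sum,
    Finset.sum_eq_single m]
  · rw [PowerSeries.coeff_smul, coeff_D_pow_self, smul_eq_mul, mul_one]
  · intro n _ hn
    rw [PowerSeries.coeff_smul, smul_eq_mul]
    rcases lt_or_gt_of_ne hn with h1 | h1
    · rw [h n h1, zero_mul]
    · rw [coeff_D_pow_lt n m h1, mul_zero]
  · intro hm
    exact absurd (Finset.mem_range.2 (Nat.lt_succ_of_le (le_max_right _ _))) hm

/-- a polynomial is determined by the first coefficients of its value -/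
theorem ev_low (R : F3[X]) (N : ℕ) (h : ∀ n, n ≤ N → PowerSeries.coeff n (ev R) = 0)
    (hR : R.natDegree ≤ N) : R = 0 := by
  by_contra hne
  have h1 := et_coeff R R.natTrailingDegree fun n hn =>
    Polynomial.coeff_eq_zero_of_lt_natTrailingDegree hn
  rw [h _ ((Polynomial.natTrailingDegree_le_natDegree R).trans hR)] at h1
  exact Polynomial.trailingCoeff_nonzero_iff_nonzero.2 hne h1.symm

private theorem et_mul (a b : ℕ) (f g : PowerSeries F3)
    (hf : ∀ n, n < a → PowerSeries.coeff n f = 0) (hg : ∀ n, n < b → PowerSeries.coeff n g = 0) :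
    (∀ n, n < a + b → PowerSeries.coeff n (f * g) = 0) ∧
    PowerSeries.coeff (a + b) (f * g) = PowerSeries.coeff a f * PowerSeries.coeff b g := by
  constructor
  · intro n hn
    rw [PowerSeries.coeff_mul]
    refine Finset.sum_eq_zero fun x hx => ?_
    rw [Finset.HasAntidiagonal.mem_antidiagonal] at hx
    rcases lt_or_ge x.1 a with h1 | h1
    · rw [hf _ h1, zero_mul]
    · rw [hg x.2 (by omega), mul_zero]
  · rw [PowerSeries.coeff_mul, Finset.sum_eq_single (a, b)]
    · intro x hx hne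
      rw [Finset.HasAntidiagonal.mem_antidiagonal] at hx
      rcases lt_trichotomy x.1 a with h1 | h1 | h1
      · rw [hf _ h1, zero_mul]
      · exact absurd (Prod.ext h1 (by simp only; omega)) hne
      · rw [hg x.2 (by omega), mul_zero]
    · intro h1
      exact (h1 (Finset.HasAntidiagonal.mem_antidiagonal.2 rfl)).elim

theorem ET (p : ℕ) (hp : p.Prime) (h3 : p ≠ 3) (d : ℕ) (c : ℕ → F3[X])
    (hdeg : ∀ i, i ≤ d → (c i).natDegree + i ≤ d)
    (hsym : ∀ i j, i ≤ d → j ≤ d → (c i).coeff j = (c j).coeff i)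
    (h : ∀ n, n ≤ (p - 1) ^ 2 + p * d →
      PowerSeries.coeff n (∑ i ∈ Finset.range (d + 1), ev (c i) * V p D ^ i) = 0) :
    ∑ i ∈ Finset.range (d + 1), ev (c i) * V p D ^ i = 0 := by
  obtain ⟨E, hE⟩ : ∃ E, E = ∑ i ∈ Finset.range (d + 1), ev (c i) * V p D ^ i := ⟨_, rfl⟩
  rw [← hE] at h ⊢
  have hp0 : 0 < p := hp.pos
  have hp2 : 2 ≤ p := hp.two_le
  have hpF : (p : F3) ≠ 0 := by
    intro h0
    rw [ZMod.natCast_eq_zero_iff] at h0
    exact h3 ((Nat.prime_dvd_prime_iff_eq Nat.prime_three hp).1 h0).symm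
  -- the symmetric form of `E`
  have hE2 : ∑ i ∈ Finset.range (d + 1), V p (ev (c i)) * D ^ i = E := by
    have e1 : ∀ i ∈ Finset.range (d + 1), V p (ev (c i)) * D ^ i =
        ∑ j ∈ Finset.range (d + 1), (c i).coeff j • (V p D ^ j * D ^ i) := by
      intro i hi
      have hi' : i ≤ d := Nat.lt_succ_iff.1 (Finset.mem_range.1 hi)
      rw [et_ev (c i) d (by have := hdeg i hi'; omega), V_sum, Finset.sum_mul]
      refine Finset.sum_congr rfl fun j _ => ?_
      rw [V_smul, V_pow p hp0, smul_mul_assoc]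
    have e2 : ∀ j ∈ Finset.range (d + 1), ev (c j) * V p D ^ j =
        ∑ i ∈ Finset.range (d + 1), (c j).coeff i • (V p D ^ j * D ^ i) := by
      intro j hj
      have hj' : j ≤ d := Nat.lt_succ_iff.1 (Finset.mem_range.1 hj)
      rw [et_ev (c j) d (by have := hdeg j hj'; omega), Finset.sum_mul]
      refine Finset.sum_congr rfl fun i _ => ?_
      rw [smul_mul_assoc, mul_comm]
    rw [Finset.sum_congr rfl e1, Finset.sum_comm, hE, Finset.sum_congr rfl e2]
    refine Finset.sum_congr rfl fun j hj => Finset.sum_congr rfl fun i hi => ?_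
    rw [hsym i j (Nat.lt_succ_iff.1 (Finset.mem_range.1 hi))
      (Nat.lt_succ_iff.1 (Finset.mem_range.1 hj))]
  by_contra hne
  -- the order of `E`
  have hex : ∃ e, PowerSeries.coeff e E ≠ 0 := by
    by_contra hcon
    push Not at hcon
    exact hne (PowerSeries.ext fun n => by rw [hcon n, map_zero])
  classical
  obtain ⟨e, he⟩ : ∃ e, e = Nat.find hex := ⟨_, rfl⟩
  have he1 : PowerSeries.coeff e E ≠ 0 := by
    rw [he]
    exact Nat.find_spec hex
  have he2 : ∀ n, n < e → PowerSeries.coeff n E = 0 := by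
    intro n hn
    rw [he] at hn
    exact not_not.1 (Nat.find_min hex hn)
  have he3 : (p - 1) ^ 2 + p * d < e := by
    by_contra hcon
    exact he1 (h e (not_lt.1 hcon))
  -- the choice of `n`
  obtain ⟨n, hn1, M, hn2⟩ : ∃ n, n ≤ p - 1 ∧ ∃ M, n + e = p * M := by
    have h1 := Nat.mod_lt e hp0
    have h2 := Nat.div_add_mod e p
    rcases Nat.eq_zero_or_pos (e % p) with h4 | h4
    · exact ⟨0, Nat.zero_le _, e / p, by omega⟩
    · refine ⟨p - e % p, by omega, e / p + 1, ?_⟩
      rw [mul_add, mul_one]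
      omega
  choose t ht1 ht2 using TRgen p hp h3
  obtain ⟨r, hr⟩ : ∃ r, r = ∑ i ∈ Finset.range (d + 1), c i * t (n + i) := ⟨_, rfl⟩
  have hrdeg : r.natDegree ≤ n + d := by
    rw [hr]
    refine Polynomial.natDegree_sum_le_of_forall_le _ _ fun i hi => ?_
    have hi' : i ≤ d := Nat.lt_succ_iff.1 (Finset.mem_range.1 hi)
    have h1 := hdeg i hi'
    have h2 := ht1 (n + i)
    exact Polynomial.natDegree_mul_le.trans (by omega)
  have hrev : ev r = V p (D ^ n) * E + (p : F3) • U p (D ^ n * E) := by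
    have e1 : ∀ i ∈ Finset.range (d + 1), ev (c i * t (n + i)) =
        V p (D ^ n) * (ev (c i) * V p D ^ i) +
          (p : F3) • U p (D ^ n * (V p (ev (c i)) * D ^ i)) := by
      intro i _
      rw [map_mul, ht2, mul_add, mul_smul_comm, ← U_V_mul p hp0, V_pow p hp0, V_pow p hp0]
      congr 1
      · rw [pow_add]; ring
      · congr 2
        rw [pow_add]; ring
    rw [hr, map_sum, Finset.sum_congr rfl e1, Finset.sum_add_distrib, ← Finset.mul_sum, ← hE,
      ← Finset.smul_sum, ← U_sum, ← Finset.mul_sum, hE2]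
  have hVn : ∀ m, m < p * n → PowerSeries.coeff m (V p (D ^ n)) = 0 := by
    intro m hm
    rw [coeff_V]
    split_ifs with hd
    · refine coeff_D_pow_lt n _ ?_
      exact Nat.div_lt_of_lt_mul hm
    · rfl
  obtain ⟨g1, -⟩ := et_mul (p * n) e _ E hVn he2
  obtain ⟨g2, g3⟩ := et_mul n e (D ^ n) E (fun m hm => coeff_D_pow_lt n m hm) he2
  have he0 : 0 < e := by omega
  have hM : M < p * n + e := by
    have h1 : 2 * M ≤ p * M := Nat.mul_le_mul_right _ hp2
    have h2 : n ≤ p * n := Nat.le_mul_of_pos_left _ hp0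
    omega
  have hlow : ∀ m, m < M → PowerSeries.coeff m (ev r) = 0 := by
    intro m hm
    rw [hrev, map_add, g1 m (by omega), zero_add, PowerSeries.coeff_smul, coeff_U, g2, smul_zero]
    rw [hn2]
    exact Nat.mul_lt_mul_of_pos_left hm hp0
  have htop : PowerSeries.coeff M (ev r) ≠ 0 := by
    rw [hrev, map_add, g1 M hM, zero_add, PowerSeries.coeff_smul, coeff_U, ← hn2, g3,
      coeff_D_pow_self, one_mul, smul_eq_mul]
    exact mul_ne_zero hpF he1
  have hMle : M ≤ n + d := by
    by_contra hcon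
    have h1 := ev_low r (n + d) (fun m hm => hlow m (by omega)) hrdeg
    apply htop
    rw [h1, map_zero, map_zero]
  have h5 : p * M ≤ p * (n + d) := Nat.mul_le_mul_left _ hMle
  obtain ⟨k, hk⟩ : ∃ k, p = k + 1 := ⟨p - 1, by omega⟩
  subst hk
  simp only [Nat.add_sub_cancel] at he3 hn1
  have h6 : k * n ≤ k * k := Nat.mul_le_mul_left _ hn1
  nlinarith

end Pool.Agent.Lib.MP_06b9d2_nt.MU
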