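import Pool.Agent.Lib.MP_06b9d2_nt.MU.Defs
import Pool.Agent.Lib.L1.Nice

/-!
Module MU-EzS. The invariant (non-holomorphic) Eisenstein series of weight `2`.

Mathlib: `E2_slash_action γ : E2 ∣[2] γ = E2 - (1 / (2 * riemannZeta 2)) • D2 γ`, with
`D2 γ z = 2 π i c / (c z + d)`, and `riemannZeta_two`; see `Pool/Agent/Lib/L1/Ram.lean` (`ram2_slash`)
for a use of it. With `j = c z + d`: `Im (γ z) = Im z / |j| ^ 2` (`UpperHalfPlane.im_smul_eq_div_normSq`
or `ModularGroup.im_smul_eq_div_normSq`), so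
`3 / (π Im (γ z)) j⁻² = 3 conj j / (π (Im z) j)` and `conj j = j - 2 i c Im z`, so this is
`3 / (π Im z) - 6 i c / (π j)`, and `E2 ∣[2] γ = E2 - (6 i c) / (π j)`.
-/

namespace Pool.Agent.Lib.MP_06b9d2_nt.MU

open UpperHalfPlane ModularForm EisensteinSeries
open scoped MatrixGroups ModularForm

/-- `E2(τ) - 3 / (π Im τ)` -/
noncomputable def E2s (τ : ℍ) : ℂ := E2 τ - 3 / ((Real.pi * τ.im : ℝ) : ℂ)

theorem E2s_slash (γ : SL(2, ℤ)) : E2s ∣[(2 : ℤ)] γ = E2s := by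
  funext z
  have hden : denom γ z ≠ 0 := denom_ne_zero γ z
  have hpi : (Real.pi : ℂ) ≠ 0 := by exact_mod_cast Real.pi_ne_zero
  have hz2 : riemannZeta 2 = (Real.pi : ℂ) ^ 2 / 6 := riemannZeta_two
  have him : (z.im : ℂ) ≠ 0 := by exact_mod_cast z.im_ne_zero
  have hEz : (E2 ∣[(2 : ℤ)] γ) z = E2 z - 1 / (2 * riemannZeta 2) * D2 γ z := by
    rw [E2_slash_action γ]; simp
  rw [ModularForm.SL_slash_apply] at hEz
  rw [ModularForm.SL_slash_apply]
  have hD : D2 γ z = (2 * Real.pi * Complex.I * (γ 1 0 : ℂ)) / denom γ z := rfl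
  have himg : (γ • z).im = z.im / Complex.normSq (denom γ z) :=
    ModularGroup.im_smul_eq_div_normSq γ z
  have hns : ((Complex.normSq (denom γ z) : ℝ) : ℂ) =
      denom γ z * (starRingEnd ℂ) (denom γ z) := (Complex.mul_conj _).symm
  have hconj : (starRingEnd ℂ) (denom γ z) =
      denom γ z - 2 * Complex.I * (γ 1 0 : ℂ) * (z.im : ℂ) := by
    rw [ModularGroup.denom_apply]
    apply Complex.ext
    · simp
    · simp
      ring
  have hns0 : ((Complex.normSq (denom γ z) : ℝ) : ℂ) ≠ 0 := by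
    rw [Complex.ofReal_ne_zero]
    exact (Complex.normSq_pos.2 hden).ne'
  have hmain : (3 / ((Real.pi * (γ • z).im : ℝ) : ℂ)) * denom γ z ^ (-2 : ℤ) =
      3 / ((Real.pi * z.im : ℝ) : ℂ) - 1 / (2 * riemannZeta 2) * D2 γ z := by
    rw [himg, hD, hz2]
    push_cast
    rw [hns, hconj, zpow_neg]
    have e2 : denom γ z ^ (2 : ℤ) = denom γ z ^ 2 := by norm_cast
    rw [e2]
    field_simp
    ring
  show E2s (γ • z) * denom γ z ^ (-2 : ℤ) = E2s z
  unfold E2s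
  rw [sub_mul, hmain, hEz]
  ring

end Pool.Agent.Lib.MP_06b9d2_nt.MU
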