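import Pool.Agent.Lib.MP_06b9d2_nt.MU.PSa

/-!
Module MU-Gm. `D = ∑ n ^ 2 σ(n) q ^ n` modulo `3` and `G - G ^ 3 = D` for `G = ∑ σ(n) q ^ n`.

Over `ℤ` (module `Pool/Agent/Lib/L1/Formal.lean`: `ramZ2 : 12 * Dq E2z = E2z ^ 2 - E4z`,
`ramZ4 : 3 * Dq E4z = E2z * E4z - E6z`; `Pool/Agent/Lib/L1/Delta.lean`:
`delta_eq : E4z ^ 3 - E6z ^ 2 = 1728 * Delz`). Let `G` be the series of `σ_1` over `ℤ`, `E2z = 1 - 24 G`,
`A = Dq G`, `B = Dq A`. Then `E4 = E2 ^ 2 + 288 A`, `Dq E4 = 2 E2 Dq E2 + 288 B = - 48 E2 A + 288 B`,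
`E6 = E2 E4 - 3 Dq E4 = E2 ^ 3 + 432 E2 A - 864 B`, and (a computation, `ring`)
`E4 ^ 3 - E6 ^ 2 = 1728 (E2 ^ 3 B + 144 E2 ^ 2 A ^ 2 + 13824 A ^ 3 - 108 (E2 A - 2 B) ^ 2)`, hence
`Delz = E2 ^ 3 B + 144 E2 ^ 2 A ^ 2 + 13824 A ^ 3 - 108 (E2 A - 2 B) ^ 2` (`PowerSeries ℤ` is a domain
of characteristic `0`). Modulo `3`: `E2 = 1`, so `D = B`, that is `coeff n D = n ^ 2 σ(n)`.
`Gm_rel`: `Gm ^ 3 = V 3 Gm` (`cube`); the coefficient of `Gm - V 3 Gm` at `n` is `σ(n)` if `3 ∤ n`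
(and `n ^ 2 = 1` in `F3`) and `σ(n) - σ(n / 3)` if `3 ∣ n`, which is `0` modulo `3`: modulo `3` the sum
of the divisors `d` of `3 m` is the sum of those prime to `3`, which divide `m`.
-/

namespace Pool.Agent.Lib.MP_06b9d2_nt.MU

open Polynomial LaurentPolynomial

/-- `∑ σ(n) q ^ n` modulo `3` -/
noncomputable def Gm : PowerSeries F3 :=
  PowerSeries.mk fun n => ((ArithmeticFunction.sigma 1 n : ℕ) : F3)

open Pool.Agent.L1 in
/-- `∑ σ(n) q ^ n` -/
private noncomputable def Gz : PowerSeries ℤ :=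
  PowerSeries.mk fun n => ((ArithmeticFunction.sigma 1 n : ℕ) : ℤ)

open Pool.Agent.L1 in
private theorem E2z_eq : E2z = 1 - 24 * Gz := by
  ext n
  rw [show (24 : PowerSeries ℤ) = PowerSeries.C (24 : ℤ) from (map_ofNat PowerSeries.C 24).symm,
    map_sub, PowerSeries.coeff_C_mul, coeff_E2z, PowerSeries.coeff_one, Gz, PowerSeries.coeff_mk]
  split_ifs with h
  · subst h; simp
  · ring

open Pool.Agent.L1 in
private theorem Dq_num (c : ℕ) [c.AtLeastTwo] (f : PowerSeries ℤ) :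
    Dq ((OfNat.ofNat c : PowerSeries ℤ) * f) = (OfNat.ofNat c : PowerSeries ℤ) * Dq f := by
  rw [Dq_mul, show (OfNat.ofNat c : PowerSeries ℤ) = PowerSeries.C (OfNat.ofNat c : ℤ)
    from (map_ofNat PowerSeries.C c).symm, Dq_C]
  ring

open Pool.Agent.L1 in
private theorem Delz_Gz : Delz = E2z ^ 3 * Dq (Dq Gz) + 144 * E2z ^ 2 * Dq Gz ^ 2 +
    13824 * Dq Gz ^ 3 - 108 * (E2z * Dq Gz - 2 * Dq (Dq Gz)) ^ 2 := by
  have h0 : (1728 : PowerSeries ℤ) ≠ 0 := by
    rw [show (1728 : PowerSeries ℤ) = PowerSeries.C (1728 : ℤ)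
      from (map_ofNat PowerSeries.C 1728).symm]
    intro h
    have := congrArg (PowerSeries.coeff 0) h
    rw [PowerSeries.coeff_C] at this
    norm_num at this
  have e2 : Dq E2z = -(24 * Dq Gz) := by
    rw [E2z_eq, Dq_sub, Dq_one, Dq_num]
    ring
  have e4 : E4z = E2z ^ 2 + 288 * Dq Gz := by
    have h := ramZ2
    rw [e2] at h
    linear_combination h
  have e4' : Dq E4z = -(48 * (E2z * Dq Gz)) + 288 * Dq (Dq Gz) := by
    have h := congrArg Dq e4
    rw [Dq_add, pow_two, Dq_mul, Dq_num, e2] at h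
    rw [h]
    ring
  have e6 : E6z = E2z ^ 3 + 432 * (E2z * Dq Gz) - 864 * Dq (Dq Gz) := by
    have h := ramZ4
    rw [e4'] at h
    linear_combination h + E2z * e4
  apply mul_left_cancel₀ h0
  rw [← delta_eq, e4, e6]
  ring

open Pool.Agent.L1 in
private theorem map_E2z_F3 : PowerSeries.map (Int.castRingHom F3) E2z = 1 := by
  rw [E2z_eq, map_sub, map_mul, map_one, map_ofNat]
  have h : (24 : PowerSeries F3) = 0 := by
    rw [show (24 : PowerSeries F3) = PowerSeries.C (24 : F3) from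
      (map_ofNat PowerSeries.C 24).symm, show (24 : F3) = 0 by decide, map_zero]
  rw [h, zero_mul, sub_zero]

open Pool.Agent.L1 in
private theorem D_eq : D = PowerSeries.map (Int.castRingHom F3) (Dq (Dq Gz)) := by
  have h144 : (144 : PowerSeries F3) = 0 := by
    rw [show (144 : PowerSeries F3) = PowerSeries.C (144 : F3) from
      (map_ofNat PowerSeries.C 144).symm, show (144 : F3) = 0 by decide, map_zero]
  have h13824 : (13824 : PowerSeries F3) = 0 := by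
    rw [show (13824 : PowerSeries F3) = PowerSeries.C (13824 : F3) from
      (map_ofNat PowerSeries.C 13824).symm, show (13824 : F3) = 0 by decide, map_zero]
  have h108 : (108 : PowerSeries F3) = 0 := by
    rw [show (108 : PowerSeries F3) = PowerSeries.C (108 : F3) from
      (map_ofNat PowerSeries.C 108).symm, show (108 : F3) = 0 by decide, map_zero]
  unfold D
  rw [Delz_Gz]
  simp only [map_sub, map_add, map_mul, map_pow, map_ofNat, map_E2z_F3, h144, h13824, h108]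
  ring

open Pool.Agent.L1 in
theorem coeff_D (n : ℕ) : PowerSeries.coeff n D =
    (n : F3) ^ 2 * ((ArithmeticFunction.sigma 1 n : ℕ) : F3) := by
  rw [D_eq, PowerSeries.coeff_map, coeff_Dq, coeff_Dq, Gz, PowerSeries.coeff_mk]
  simp
  ring

private theorem cast_eq_zero_iff (d : ℕ) : (d : F3) = 0 ↔ 3 ∣ d :=
  ZMod.natCast_eq_zero_iff d 3

private theorem sigma_cast (n : ℕ) : ((ArithmeticFunction.sigma 1 n : ℕ) : F3) =
    ∑ d ∈ n.divisors with ¬ 3 ∣ d, (d : F3) := by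
  rw [ArithmeticFunction.sigma_one_apply, Nat.cast_sum, Finset.sum_filter]
  refine Finset.sum_congr rfl fun d _ => ?_
  split_ifs with h
  · exact (cast_eq_zero_iff d).2 h
  · rfl

private theorem sigma_three (m : ℕ) : ((ArithmeticFunction.sigma 1 (3 * m) : ℕ) : F3) =
    ((ArithmeticFunction.sigma 1 m : ℕ) : F3) := by
  rw [sigma_cast, sigma_cast]
  congr 1
  ext d
  simp only [Finset.mem_filter, Nat.mem_divisors]
  constructor
  · rintro ⟨⟨h1, h2⟩, h3⟩
    refine ⟨⟨?_, fun h => h2 (by rw [h, mul_zero])⟩, h3⟩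
    exact (Nat.Coprime.dvd_of_dvd_mul_left
      (((Nat.Prime.coprime_iff_not_dvd Nat.prime_three).2 h3).symm) h1)
  · rintro ⟨⟨h1, h2⟩, h3⟩
    exact ⟨⟨h1.mul_left 3, by omega⟩, h3⟩

theorem Gm_rel : Gm - Gm ^ 3 = D := by
  rw [cube]
  ext n
  rw [map_sub, coeff_V, coeff_D, Gm, PowerSeries.coeff_mk, PowerSeries.coeff_mk]
  by_cases h : 3 ∣ n
  · obtain ⟨m, rfl⟩ := h
    rw [if_pos (dvd_mul_right 3 m), Nat.mul_div_cancel_left m (by norm_num), sigma_three, sub_self,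
      (cast_eq_zero_iff (3 * m)).2 (dvd_mul_right 3 m)]
    ring
  · rw [if_neg h, sub_zero]
    have h1 : (n : F3) ≠ 0 := fun h' => h ((cast_eq_zero_iff n).1 h')
    have h2 : ∀ x : F3, x ≠ 0 → x ^ 2 = 1 := by decide
    rw [h2 _ h1, one_mul]

end Pool.Agent.Lib.MP_06b9d2_nt.MU
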