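import Pool.Agent.Lib.MP_06b9d2_nt.MU.ET

/-!
Module MU-M2. The modular equation for `p = 2` modulo `3`.

`ET` with `p = 2`, `d = 3`, `c 0 = X ^ 3`, `c 1 = - X`, `c 2 = 0`, `c 3 = 1`: the sum is
`D ^ 3 - D * V 2 D + (V 2 D) ^ 3`. The coefficients up to `7` must be checked: `coeff_D` (module Gm)
gives those of `D` (`D = q + q ^ 4 + 2 q ^ 7 + ⋯`); `D ^ 3 = V 3 D` (`cube`),
`(V 2 D) ^ 3 = V 3 (V 2 D) = V 6 D`, and the coefficients of `D * V 2 D` (`PowerSeries.coeff_mul`,
`Finset.Nat.antidiagonal`).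
-/

namespace Pool.Agent.Lib.MP_06b9d2_nt.MU

open Polynomial LaurentPolynomial

private theorem M2_D (n : ℕ) (hn : n ≤ 7) : PowerSeries.coeff n D =
    if n = 1 ∨ n = 4 then 1 else if n = 7 then 2 else 0 := by
  rw [coeff_D]
  have key : ∀ m, m ≤ 7 → ((m : ℕ) : F3) ^ 2 * ((ArithmeticFunction.sigma 1 m : ℕ) : F3) =
      if m = 1 ∨ m = 4 then 1 else if m = 7 then 2 else 0 := by
    intro m hm
    interval_cases m <;> decide
  exact key n hn

/-- the coefficients of the equation -/
private noncomputable def M2c : ℕ → F3[X]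
  | 0 => X ^ 3
  | 1 => -X
  | 2 => 0
  | 3 => 1
  | (_ + 4) => 0

private theorem M2_sum : ∑ i ∈ Finset.range (3 + 1), ev (M2c i) * V 2 D ^ i =
    D ^ 3 - D * V 2 D + V 2 D ^ 3 := by
  have e0 : ev (M2c 0) = D ^ 3 := by
    show ev (X ^ 3) = D ^ 3
    rw [map_pow, ev, Polynomial.aeval_X]
  have e1 : ev (M2c 1) = -D := by
    show ev (-X) = -D
    rw [map_neg, ev, Polynomial.aeval_X]
  have e2 : ev (M2c 2) = 0 := by
    show ev 0 = 0
    exact map_zero _
  have e3 : ev (M2c 3) = 1 := by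
    show ev 1 = 1
    exact map_one _
  rw [Finset.sum_range_succ, Finset.sum_range_succ, Finset.sum_range_succ, Finset.sum_range_succ,
    Finset.sum_range_zero, e0, e1, e2, e3]
  ring

private theorem M2_coeff (n : ℕ) (hn : n ≤ 7) :
    PowerSeries.coeff n (D ^ 3 - D * V 2 D + V 2 D ^ 3) = 0 := by
  have h3 : ∀ f : PowerSeries F3, ∀ m, PowerSeries.coeff m (f ^ 3) =
      if 3 ∣ m then PowerSeries.coeff (m / 3) f else 0 := by
    intro f m
    rw [cube, coeff_V]
  have hD : ∀ m, m ≤ 7 → PowerSeries.coeff m D =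
      (if m = 1 ∨ m = 4 then 1 else if m = 7 then 2 else 0 : F3) := M2_D
  have hV : ∀ m, m ≤ 7 → PowerSeries.coeff m (V 2 D) = (if m = 2 then 1 else 0 : F3) := by
    intro m hm
    rw [coeff_V]
    by_cases h2 : 2 ∣ m
    · rw [if_pos h2, hD (m / 2) (by omega)]
      obtain ⟨k, rfl⟩ := h2
      have hk : k ≤ 3 := by omega
      interval_cases k <;> simp
    · rw [if_neg h2]
      have : m ≠ 2 := by rintro rfl; exact h2 (dvd_refl 2)
      rw [if_neg this]
  rw [map_add, map_sub, h3, h3, PowerSeries.coeff_mul]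
  have hs : ∑ x ∈ Finset.HasAntidiagonal.antidiagonal n,
        PowerSeries.coeff x.1 D * PowerSeries.coeff x.2 (V 2 D) =
      ∑ x ∈ Finset.HasAntidiagonal.antidiagonal n,
        ((if x.1 = 1 ∨ x.1 = 4 then 1 else if x.1 = 7 then 2 else 0 : F3) *
          (if x.2 = 2 then 1 else 0 : F3)) := by
    apply Finset.sum_congr rfl
    intro x hx
    have := Finset.HasAntidiagonal.mem_antidiagonal.1 hx
    rw [hD x.1 (by omega), hV x.2 (by omega)]
  rw [hs, hD (n / 3) (by omega), hV (n / 3) (by omega)]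
  clear hs hD hV h3
  have key : ∀ m, m ≤ 7 → ((if 3 ∣ m then (if m / 3 = 1 ∨ m / 3 = 4 then 1
      else if m / 3 = 7 then 2 else 0 : F3) else 0) -
      ∑ x ∈ Finset.HasAntidiagonal.antidiagonal m,
        ((if x.1 = 1 ∨ x.1 = 4 then 1 else if x.1 = 7 then 2 else 0 : F3) *
          (if x.2 = 2 then 1 else 0 : F3)) +
      if 3 ∣ m then (if m / 3 = 2 then 1 else 0 : F3) else 0) = 0 := by
    intro m hm
    interval_cases m <;> decide
  exact key n hn

theorem M2 : V 2 D ^ 3 = D * V 2 D - D ^ 3 := by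
  have h := ET 2 Nat.prime_two (by norm_num) 3 M2c ?_ ?_ ?_
  · rw [M2_sum] at h
    linear_combination h
  · intro i hi
    interval_cases i
    · show (X ^ 3 : F3[X]).natDegree + 0 ≤ 3
      rw [natDegree_X_pow]
    · show (-X : F3[X]).natDegree + 1 ≤ 3
      rw [natDegree_neg, natDegree_X]
      norm_num
    · show (0 : F3[X]).natDegree + 2 ≤ 3
      rw [natDegree_zero]
      norm_num
    · show (1 : F3[X]).natDegree + 3 ≤ 3
      rw [natDegree_one]
  · intro i j hi hj
    have c0 : ∀ m, (M2c 0).coeff m = if m = 3 then 1 else 0 := by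
      intro m
      show (X ^ 3 : F3[X]).coeff m = _
      rw [coeff_X_pow]
    have c1 : ∀ m, (M2c 1).coeff m = if m = 1 then -1 else 0 := by
      intro m
      show (-X : F3[X]).coeff m = _
      rw [coeff_neg, coeff_X]
      by_cases h : m = 1
      · subst h
        simp
      · rw [if_neg (fun h' => h h'.symm), if_neg h, neg_zero]
    have c2 : ∀ m, (M2c 2).coeff m = 0 := by
      intro m
      show (0 : F3[X]).coeff m = _
      rw [coeff_zero]
    have c3 : ∀ m, (M2c 3).coeff m = if m = 0 then 1 else 0 := by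
      intro m
      show (1 : F3[X]).coeff m = _
      rw [coeff_one]
    interval_cases i <;> interval_cases j <;> simp [c0, c1, c2, c3]
  · intro n hn
    rw [M2_sum]
    exact M2_coeff n (by norm_num at hn; exact hn)

end Pool.Agent.Lib.MP_06b9d2_nt.MU
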