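import Pool.Agent.Lib.MP_06b9d2_nt.MU.PSa
import Pool.Agent.Lib.L1.Nice

/-!
Module MU-NvA. `f(p τ)` for a nice function `f`.

`Nice` and its API: `Pool/Agent/Lib/L1/Nice.lean`. With the coefficients `c_m` of `f` (`Nice.hasSum`),
`f (p τ) = ∑ c_m q ^ (p m)` (`q(p τ) = q(τ) ^ p`, `Function.Periodic.qParam`), that is the series
`V p (qExpansion 1 f)` (`Function.Injective.hasSum_iff` for `m ↦ p m`), so `Nice.coeff_unique`.
For `Nice`: periodicity and holomorphy (compare `Nice.deriv'`; `ofComplex_apply_of_im_pos`; for the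
composition use `MDifferentiable` and `DifferentiableOn` on the upper half plane,
`UpperHalfPlane.mdifferentiable_iff`), boundedness (`isBoundedAtImInfty_of_hasSum_qExpansion one_pos`).
See also `Pool/Agent/Lib/MP_06b9d2_nt/ME/HeckeN.lean` (private theorem `term`).
-/

namespace Pool.Agent.Lib.MP_06b9d2_nt.MU

open UpperHalfPlane Pool.Agent.L1

/-- `f(p τ)` -/
noncomputable def fV (p : ℕ) (f : ℍ → ℂ) : ℍ → ℂ := fun τ => f (ofComplex ((p : ℂ) * (τ : ℂ)))

private theorem im_mul_pos (p : ℕ) (hp : 0 < p) (z : ℂ) (hz : 0 < z.im) : 0 < ((p : ℂ) * z).im := by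
  have h : ((p : ℂ) * z).im = p * z.im := by simp
  rw [h]
  exact mul_pos (by exact_mod_cast hp) hz

/-- the `q`-series of `f(p τ)` -/
private theorem hasSum_fV (p : ℕ) (hp : 0 < p) (f : ℍ → ℂ) (hf : Nice f) (τ : ℍ) :
    HasSum (fun m : ℕ => (V p (qExpansion 1 f)).coeff m •
      Function.Periodic.qParam 1 (τ : ℂ) ^ m) (fV p f τ) := by
  have hz := im_mul_pos p hp (τ : ℂ) τ.im_pos
  have h := hf.hasSum (ofComplex ((p : ℂ) * (τ : ℂ)))
  have hq : Function.Periodic.qParam 1 ((ofComplex ((p : ℂ) * (τ : ℂ)) : ℍ) : ℂ) =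
      Function.Periodic.qParam 1 (τ : ℂ) ^ p := by
    rw [ofComplex_apply_of_im_pos hz]
    unfold Function.Periodic.qParam
    rw [← Complex.exp_nat_mul]
    congr 1
    push_cast
    ring
  rw [hq] at h
  have hinj : Function.Injective (fun m : ℕ => p * m) := fun x y hxy =>
    Nat.eq_of_mul_eq_mul_left hp hxy
  refine (hinj.hasSum_iff ?_).1 ?_
  · intro m hm
    have hnd : ¬ p ∣ m := by
      rintro ⟨x, rfl⟩
      exact hm ⟨x, rfl⟩
    have h0 : (V p (qExpansion 1 f)).coeff m = 0 := by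
      rw [V, PowerSeries.coeff_mk, if_neg hnd]
    rw [h0, zero_smul]
  · refine h.congr_fun ?_ |> id
    intro m
    simp only [Function.comp_apply]
    have h1 : (V p (qExpansion 1 f)).coeff (p * m) = (qExpansion 1 f).coeff m := by
      rw [V, PowerSeries.coeff_mk, if_pos (Dvd.intro _ rfl), Nat.mul_div_cancel_left _ hp]
    rw [h1, pow_mul]

theorem nice_fV (p : ℕ) (hp : 0 < p) (f : ℍ → ℂ) (hf : Nice f) : Nice (fV p f) where
  per := by
    intro w
    simp only [Function.comp_apply, fV]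
    by_cases hw : 0 < w.im
    · have hw' : 0 < (w + ((1 : ℝ) : ℂ)).im := by simpa using hw
      rw [ofComplex_apply_of_im_pos hw', ofComplex_apply_of_im_pos hw]
      have h := (hf.per.nat_mul p) ((p : ℂ) * w)
      simp only [Function.comp_apply] at h
      have e : (p : ℂ) * (w + ((1 : ℝ) : ℂ)) = (p : ℂ) * w + (p : ℂ) * ((1 : ℝ) : ℂ) := by ring
      change f (ofComplex ((p : ℂ) * (w + ((1 : ℝ) : ℂ)))) = f (ofComplex ((p : ℂ) * w))
      rw [e]
      exact h
    · have hw1 : w.im ≤ 0 := not_lt.mp hw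
      have hw2 : (w + ((1 : ℝ) : ℂ)).im ≤ 0 := by simpa using hw1
      rw [ofComplex_apply_of_im_nonpos hw1, ofComplex_apply_of_im_nonpos hw2]
  hol := by
    rw [UpperHalfPlane.mdifferentiable_iff]
    have h := UpperHalfPlane.mdifferentiable_iff.1 hf.hol
    have hmap : Set.MapsTo (fun z : ℂ => (p : ℂ) * z) {z : ℂ | 0 < z.im} {z : ℂ | 0 < z.im} :=
      fun z hz => im_mul_pos p hp z hz
    have h2 : DifferentiableOn ℂ (fun z : ℂ => (p : ℂ) * z) {z : ℂ | 0 < z.im} :=
      (differentiable_id.const_mul (p : ℂ)).differentiableOn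
    refine (h.comp h2 hmap).congr ?_
    intro z hz
    have hz' : 0 < z.im := hz
    simp only [Function.comp_apply, fV]
    rw [ofComplex_apply_of_im_pos hz']
  bdd := isBoundedAtImInfty_of_hasSum_qExpansion one_pos (hasSum_fV p hp f hf)

theorem qexp_fV (p : ℕ) (hp : 0 < p) (f : ℍ → ℂ) (hf : Nice f) :
    qExpansion 1 (fV p f) = V p (qExpansion 1 f) := by
  ext m
  exact (nice_fV p hp f hf).coeff_unique (hasSum_fV p hp f hf) m

end Pool.Agent.Lib.MP_06b9d2_nt.MU
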