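import Pool.Agent.Lib.MP_06b9d2_nt.MU.PSa
import Pool.Agent.Lib.L1.Nice

/-!
Module MU-NvB. `∑_b f((τ + b) / p)` for a nice function `f`.

`Nice` and its API: `Pool/Agent/Lib/L1/Nice.lean`. With the coefficients `c_m` of `f` (`Nice.hasSum`),
`∑_{b < p} f ((τ + b) / p) = p ∑ c_{p m} q ^ m`: the private theorem `term` of
`Pool/Agent/Lib/MP_06b9d2_nt/ME/HeckeN.lean` (with `a = 1`, `d = p`) proves exactly this for cusp forms
(copy the proof, `Nice.hasSum` instead of `hs`); then `Nice.coeff_unique`.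
For `Nice`: periodicity (`f ((τ + 1 + b) / p)`: the term `b = p - 1` becomes `f (τ / p + 1) = f (τ / p)`;
or simply from the `HasSum`: the value only depends on `q`), holomorphy (`ofComplex_apply_of_im_pos`;
`UpperHalfPlane.mdifferentiable_iff`), boundedness (`isBoundedAtImInfty_of_hasSum_qExpansion one_pos`).
-/

namespace Pool.Agent.Lib.MP_06b9d2_nt.MU

open UpperHalfPlane Pool.Agent.L1

/-- `∑_{b < p} f((τ + b) / p)` -/
noncomputable def fU (p : ℕ) (f : ℍ → ℂ) : ℍ → ℂ := fun τ =>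
  ∑ b ∈ Finset.range p, f (ofComplex (((τ : ℂ) + (b : ℂ)) / (p : ℂ)))

private theorem NvB_im (z : ℂ) (hz : 0 < z.im) (d b : ℕ) (hd : 0 < d) :
    0 < ((z + (b : ℂ)) / (d : ℂ)).im := by
  have h : ((z + (b : ℂ)) / (d : ℂ)).im = z.im / d := by
    rw [Complex.div_natCast_im]
    simp
  rw [h]
  have : (0 : ℝ) < d := by exact_mod_cast hd
  positivity

private theorem NvB_hs (f : ℍ → ℂ) (hf : Nice f) (z : ℂ) (hz : 0 < z.im) :
    HasSum (fun m ↦ (qExpansion 1 f).coeff m * Complex.exp (2 * Real.pi * Complex.I * z) ^ m)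
      (f (ofComplex z)) := by
  have h := hf.hasSum (ofComplex z)
  rw [ofComplex_apply_of_im_pos hz] at h ⊢
  have e : Function.Periodic.qParam 1 ((⟨z, hz⟩ : ℍ) : ℂ) =
      Complex.exp (2 * Real.pi * Complex.I * z) := by
    unfold Function.Periodic.qParam
    congr 1
    push_cast
    rw [div_one]
  rw [e] at h
  exact h

private theorem NvB_term (f : ℍ → ℂ) (hf : Nice f) (d : ℕ) (hd : 0 < d) (τ : ℍ) :
    HasSum (fun j : ℕ => ((d : ℂ) * (qExpansion 1 f).coeff (d * j)) •
        Function.Periodic.qParam 1 (τ : ℂ) ^ j) (fU d f τ) := by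
  set c : ℕ → ℂ := fun m => (qExpansion 1 f).coeff m with hc
  have hd0 : (d : ℂ) ≠ 0 := by exact_mod_cast hd.ne'
  set w : ℂ := Complex.exp (2 * Real.pi * Complex.I * ((τ : ℂ) / (d : ℂ))) with hw
  set ζ : ℂ := Complex.exp (2 * Real.pi * Complex.I / d) with hζ
  have hprim : IsPrimitiveRoot ζ d := Complex.isPrimitiveRoot_exp d hd.ne'
  have hw1 : w ^ d = Function.Periodic.qParam 1 (τ : ℂ) := by
    rw [hw, ← Complex.exp_nat_mul]
    unfold Function.Periodic.qParam
    congr 1
    push_cast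
    field_simp
  have hwb : ∀ b : ℕ, Complex.exp (2 * Real.pi * Complex.I *
      (((τ : ℂ) + (b : ℂ)) / (d : ℂ))) = ζ ^ b * w := by
    intro b
    rw [hw, hζ, ← Complex.exp_nat_mul, ← Complex.exp_add]
    congr 1
    field_simp
    ring
  have h1 : HasSum (fun m : ℕ => ∑ b ∈ Finset.range d, c m * (ζ ^ b * w) ^ m) (fU d f τ) := by
    refine hasSum_sum fun b _ => ?_
    have := NvB_hs f hf _ (NvB_im τ τ.im_pos d b hd)
    rwa [hwb b] at this
  have hinj : Function.Injective (fun j : ℕ => d * j) := fun x y hxy =>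
    Nat.eq_of_mul_eq_mul_left hd hxy
  have key := (hinj.hasSum_iff (f := fun m : ℕ => ∑ b ∈ Finset.range d, c m * (ζ ^ b * w) ^ m)
    (a := fU d f τ) ?_).2 h1
  · refine key.congr_fun ?_ |> id
    intro j
    simp only [Function.comp_apply]
    have : ∀ b ∈ Finset.range d, c (d * j) * (ζ ^ b * w) ^ (d * j) =
        c (d * j) * Function.Periodic.qParam 1 (τ : ℂ) ^ j := by
      intro b _
      rw [mul_pow, ← pow_mul, show b * (d * j) = d * (b * j) by ring, pow_mul ζ d,
        hprim.pow_eq_one, one_pow, one_mul, pow_mul w d j, hw1]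
    rw [Finset.sum_congr rfl this, Finset.sum_const, Finset.card_range, nsmul_eq_mul, smul_eq_mul]
    ring
  · intro m hm
    have hnd : ¬ d ∣ m := by
      rintro ⟨y, hy⟩
      exact hm ⟨y, hy.symm⟩
    have e : ∀ b ∈ Finset.range d, c m * (ζ ^ b * w) ^ m = (c m * w ^ m) * (ζ ^ m) ^ b := by
      intro b _
      rw [mul_pow, ← pow_mul, ← pow_mul, mul_comm b m]
      ring
    rw [Finset.sum_congr rfl e, ← Finset.mul_sum]
    have hz : ζ ^ m ≠ 1 := fun h => hnd ((hprim.pow_eq_one_iff_dvd m).1 h)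
    have h3 : (∑ b ∈ Finset.range d, (ζ ^ m) ^ b) * (ζ ^ m - 1) = 0 := by
      rw [geom_sum_mul, ← pow_mul, mul_comm m d, pow_mul, hprim.pow_eq_one, one_pow, sub_self]
    rcases mul_eq_zero.1 h3 with h | h
    · rw [h, mul_zero]
    · exact absurd (sub_eq_zero.1 h) hz

theorem nice_fU (p : ℕ) (hp : 0 < p) (f : ℍ → ℂ) (hf : Nice f) : Nice (fU p f) where
  per := by
    intro w
    simp only [Function.comp_apply]
    by_cases hw : 0 < w.im
    · have hw' : 0 < (w + ((1 : ℝ) : ℂ)).im := by simpa using hw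
      rw [ofComplex_apply_of_im_pos hw', ofComplex_apply_of_im_pos hw]
      have h1 := NvB_term f hf p hp ⟨w + ((1 : ℝ) : ℂ), hw'⟩
      have h2 := NvB_term f hf p hp ⟨w, hw⟩
      have e : Function.Periodic.qParam 1 (((⟨w + ((1 : ℝ) : ℂ), hw'⟩ : ℍ)) : ℂ) =
          Function.Periodic.qParam 1 (((⟨w, hw⟩ : ℍ)) : ℂ) := by
        unfold Function.Periodic.qParam
        rw [UpperHalfPlane.coe_mk, UpperHalfPlane.coe_mk, Complex.exp_eq_exp_iff_exists_int]
        refine ⟨1, ?_⟩
        push_cast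
        ring
      rw [e] at h1
      exact h1.unique h2
    · have hw1 : w.im ≤ 0 := not_lt.mp hw
      have hw2 : (w + ((1 : ℝ) : ℂ)).im ≤ 0 := by simpa using hw1
      rw [ofComplex_apply_of_im_nonpos hw1, ofComplex_apply_of_im_nonpos hw2]
  hol := by
    rw [UpperHalfPlane.mdifferentiable_iff]
    have h0 := UpperHalfPlane.mdifferentiable_iff.1 hf.hol
    have h1 : DifferentiableOn ℂ (fun z : ℂ => ∑ b ∈ Finset.range p,
        (f ∘ ofComplex) ((z + (b : ℂ)) / (p : ℂ))) {z : ℂ | 0 < z.im} := by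
      refine DifferentiableOn.fun_sum fun b _ => ?_
      refine h0.comp (f := fun z : ℂ => (z + (b : ℂ)) / (p : ℂ)) ?_ ?_
      · exact ((differentiable_id.add_const _).div_const _).differentiableOn
      · intro z hz
        exact NvB_im z hz p b hp
    refine h1.congr fun z hz => ?_
    have hz' : 0 < z.im := hz
    simp only [Function.comp_apply, fU]
    rw [ofComplex_apply_of_im_pos hz']
  bdd := isBoundedAtImInfty_of_hasSum_qExpansion one_pos (NvB_term f hf p hp)

theorem qexp_fU (p : ℕ) (hp : 0 < p) (f : ℍ → ℂ) (hf : Nice f) :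
    qExpansion 1 (fU p f) = (p : ℂ) • U p (qExpansion 1 f) := by
  ext m
  rw [(nice_fU p hp f hf).coeff_unique (NvB_term f hf p hp) m, PowerSeries.coeff_smul, coeff_U,
    smul_eq_mul]

end Pool.Agent.Lib.MP_06b9d2_nt.MU
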