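import Pool.Agent.Lib.MP_06b9d2_nt.MU.Defs

/-!
Module MU-PSa. The operators `U p` and `V p` on power series.

`V p` is `PowerSeries.expand p` of Mathlib, so that most statements about `V` are those of Mathlib.
-/

namespace Pool.Agent.Lib.MP_06b9d2_nt.MU

open Polynomial LaurentPolynomial

section
variable {R : Type*} [CommRing R]

theorem coeff_U (p n : ℕ) (f : PowerSeries R) :
    PowerSeries.coeff n (U p f) = PowerSeries.coeff (p * n) f := by
  rw [U, PowerSeries.coeff_mk]

theorem coeff_V (p n : ℕ) (f : PowerSeries R) :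
    PowerSeries.coeff n (V p f) = if p ∣ n then PowerSeries.coeff (n / p) f else 0 := by
  rw [V, PowerSeries.coeff_mk]

theorem coeff_V_mul (p n : ℕ) (hp : 0 < p) (f : PowerSeries R) :
    PowerSeries.coeff (p * n) (V p f) = PowerSeries.coeff n f := by
  rw [coeff_V, if_pos (Dvd.intro n rfl), Nat.mul_div_cancel_left n hp]

private theorem V_eq_expand (p : ℕ) (hp : 0 < p) (f : PowerSeries R) :
    V p f = PowerSeries.expand p hp.ne' f := by
  ext n
  rw [coeff_V, PowerSeries.coeff_expand]

theorem U_add (p : ℕ) (f g : PowerSeries R) : U p (f + g) = U p f + U p g := by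
  ext n
  rw [map_add, coeff_U, coeff_U, coeff_U, map_add]

theorem U_sub (p : ℕ) (f g : PowerSeries R) : U p (f - g) = U p f - U p g := by
  ext n
  rw [map_sub, coeff_U, coeff_U, coeff_U, map_sub]

theorem U_neg (p : ℕ) (f : PowerSeries R) : U p (-f) = -U p f := by
  ext n
  rw [map_neg, coeff_U, coeff_U, map_neg]

theorem U_smul (p : ℕ) (c : R) (f : PowerSeries R) : U p (c • f) = c • U p f := by
  ext n
  rw [map_smul, coeff_U, coeff_U, map_smul]

theorem U_zero (p : ℕ) : U p (0 : PowerSeries R) = 0 := by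
  ext n
  rw [coeff_U, map_zero, map_zero]

theorem U_one (p : ℕ) (hp : 0 < p) : U p (1 : PowerSeries R) = 1 := by
  ext n
  rw [coeff_U, PowerSeries.coeff_one, PowerSeries.coeff_one]
  by_cases hn : n = 0
  · subst hn; simp
  · rw [if_neg hn, if_neg (Nat.mul_ne_zero hp.ne' hn)]

theorem V_add (p : ℕ) (f g : PowerSeries R) : V p (f + g) = V p f + V p g := by
  ext n
  rw [map_add, coeff_V, coeff_V, coeff_V, map_add]
  split_ifs
  · rfl
  · rw [add_zero]

theorem V_sub (p : ℕ) (f g : PowerSeries R) : V p (f - g) = V p f - V p g := by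
  ext n
  rw [map_sub, coeff_V, coeff_V, coeff_V, map_sub]
  split_ifs
  · rfl
  · rw [sub_zero]

theorem V_neg (p : ℕ) (f : PowerSeries R) : V p (-f) = -V p f := by
  ext n
  rw [map_neg, coeff_V, coeff_V, map_neg]
  split_ifs
  · rfl
  · rw [neg_zero]

theorem V_smul (p : ℕ) (c : R) (f : PowerSeries R) : V p (c • f) = c • V p f := by
  ext n
  rw [map_smul, coeff_V, coeff_V, map_smul]
  split_ifs
  · rfl
  · rw [smul_zero]

theorem V_zero (p : ℕ) : V p (0 : PowerSeries R) = 0 := by
  ext n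
  rw [coeff_V, map_zero, map_zero, ite_self]

theorem V_one (p : ℕ) (hp : 0 < p) : V p (1 : PowerSeries R) = 1 := by
  rw [V_eq_expand p hp, map_one]

theorem U_sum {ι : Type*} (p : ℕ) (s : Finset ι) (f : ι → PowerSeries R) :
    U p (∑ i ∈ s, f i) = ∑ i ∈ s, U p (f i) := by
  ext n
  rw [coeff_U, map_sum, map_sum]
  exact Finset.sum_congr rfl fun i _ => (coeff_U p n (f i)).symm

theorem V_sum {ι : Type*} (p : ℕ) (s : Finset ι) (f : ι → PowerSeries R) :
    V p (∑ i ∈ s, f i) = ∑ i ∈ s, V p (f i) := by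
  classical
  induction s using Finset.induction_on with
  | empty => rw [Finset.sum_empty, Finset.sum_empty, V_zero]
  | insert i s hi ih => rw [Finset.sum_insert hi, Finset.sum_insert hi, V_add, ih]

theorem V_mul (p : ℕ) (hp : 0 < p) (f g : PowerSeries R) : V p (f * g) = V p f * V p g := by
  rw [V_eq_expand p hp, V_eq_expand p hp, V_eq_expand p hp, map_mul]

theorem V_pow (p : ℕ) (hp : 0 < p) (f : PowerSeries R) (n : ℕ) : V p (f ^ n) = V p f ^ n := by
  rw [V_eq_expand p hp, V_eq_expand p hp, map_pow]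

theorem U_V_mul (p : ℕ) (hp : 0 < p) (f g : PowerSeries R) : U p (V p f * g) = f * U p g := by
  ext n
  rw [coeff_U, PowerSeries.coeff_mul, PowerSeries.coeff_mul]
  symm
  apply Finset.sum_of_injOn (fun x : ℕ × ℕ => (p * x.1, p * x.2))
  · rintro ⟨a, b⟩ _ ⟨c, d⟩ _ h
    rw [Prod.mk.injEq] at h
    have h1 : a = c := Nat.eq_of_mul_eq_mul_left hp h.1
    have h2 : b = d := Nat.eq_of_mul_eq_mul_left hp h.2
    rw [h1, h2]
  · rintro ⟨a, b⟩ h
    have h' := Finset.HasAntidiagonal.mem_antidiagonal.1 (Finset.mem_coe.1 h)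
    refine Finset.mem_coe.2 (Finset.HasAntidiagonal.mem_antidiagonal.2 ?_)
    change a + b = n at h'
    change p * a + p * b = p * n
    rw [← h', mul_add]
  · rintro ⟨a, b⟩ h hn
    have h' := Finset.HasAntidiagonal.mem_antidiagonal.1 h
    change a + b = p * n at h'
    change PowerSeries.coeff a (V p f) * PowerSeries.coeff b g = 0
    by_cases ha : p ∣ a
    · exfalso
      apply hn
      have hb : p ∣ b := (Nat.dvd_add_right ha).1 (h' ▸ Dvd.intro n rfl)
      obtain ⟨c, rfl⟩ := ha
      obtain ⟨d, rfl⟩ := hb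
      refine ⟨(c, d), Finset.mem_coe.2 (Finset.HasAntidiagonal.mem_antidiagonal.2 ?_), rfl⟩
      change c + d = n
      rw [← mul_add] at h'
      exact Nat.eq_of_mul_eq_mul_left hp h'
    · rw [coeff_V, if_neg ha, zero_mul]
  · rintro ⟨a, b⟩ _
    change PowerSeries.coeff a f * PowerSeries.coeff b (U p g) =
      PowerSeries.coeff (p * a) (V p f) * PowerSeries.coeff (p * b) g
    rw [coeff_U, coeff_V_mul p a hp]

theorem V_V (p l : ℕ) (hp : 0 < p) (hl : 0 < l) (f : PowerSeries R) :
    V p (V l f) = V (p * l) f := by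
  rw [V_eq_expand p hp, V_eq_expand l hl, V_eq_expand (p * l) (Nat.mul_pos hp hl),
    PowerSeries.expand_mul p hp.ne' l hl.ne']

theorem U_U (p l : ℕ) (f : PowerSeries R) : U p (U l f) = U (p * l) f := by
  ext n
  rw [coeff_U, coeff_U, coeff_U]
  congr 2
  ring

theorem U_V_comm (p l : ℕ) (hp : 0 < p) (hl : 0 < l) (h : Nat.Coprime p l) (f : PowerSeries R) :
    U p (V l f) = V l (U p f) := by
  ext n
  rw [coeff_U, coeff_V, coeff_V]
  by_cases hn : l ∣ n
  · rw [if_pos hn, if_pos (hn.mul_left p), coeff_U, Nat.mul_div_assoc p hn]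
  · rw [if_neg hn, if_neg]
    intro h1
    exact hn (h.symm.dvd_of_dvd_mul_left h1)

theorem V_inj (p : ℕ) (hp : 0 < p) : Function.Injective (V p : PowerSeries R → PowerSeries R) := by
  intro f g h
  ext n
  rw [← coeff_V_mul p n hp f, ← coeff_V_mul p n hp g, h]

theorem V_map {S : Type*} [CommRing S] (p : ℕ) (φ : R →+* S) (f : PowerSeries R) :
    PowerSeries.map φ (V p f) = V p (PowerSeries.map φ f) := by
  ext n
  rw [PowerSeries.coeff_map, coeff_V, coeff_V, PowerSeries.coeff_map]
  split_ifs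
  · rfl
  · rw [map_zero]

theorem U_map {S : Type*} [CommRing S] (p : ℕ) (φ : R →+* S) (f : PowerSeries R) :
    PowerSeries.map φ (U p f) = U p (PowerSeries.map φ f) := by
  ext n
  rw [PowerSeries.coeff_map, coeff_U, coeff_U, PowerSeries.coeff_map]

end

theorem cube (f : PowerSeries F3) : f ^ 3 = V 3 f := by
  have h := MvPowerSeries.map_frobenius_expand (σ := Unit) (R := F3) 3 (by norm_num) (f := f)
  rw [V_eq_expand 3 (by norm_num)]
  rw [← h]
  have h2 : frobenius F3 3 = RingHom.id F3 := ZMod.frobenius_zmod 3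
  rw [h2]
  rfl

/-- `V p` is an algebra homomorphism: evaluation of polynomials -/
theorem V_aeval (p : ℕ) (hp : 0 < p) (f : PowerSeries F3) (G : F3[X]) :
    V p (Polynomial.aeval f G) = Polynomial.aeval (V p f) G := by
  rw [V_eq_expand p hp, V_eq_expand p hp, Polynomial.aeval_algHom_apply]

end Pool.Agent.Lib.MP_06b9d2_nt.MU
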