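import Pool.Agent.Lib.MP_06b9d2_nt.MU.PSa
import Pool.Agent.Lib.MP_72e75e_nt.DeltaSeries

/-!
Module MU-Rt. The discriminant modulo `3` is `X * E ^ 6`, `E` with constant coefficient `1`.

`Pool/Agent/Lib/MP_06b9d2_nt/MD/DelF.lean` shows `Delz = SixReg.DeltaZ` with
`SixReg.DeltaZ = X * (pentagonalSeries ℤ) ^ 24` (see `Pool/Agent/Lib/MP_72e75e_nt/DeltaSeries.lean`);
copy that proof. Map to `F3` (`PowerSeries.map` is a ring homomorphism) and put
`E := (image of the pentagonal series) ^ 4`; its constant coefficient is `1`.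
`D_form`: `E ^ 6 = (E ^ 2) ^ 3 = V 3 (E ^ 2)` (`cube`).
The other statements are consequences: `D = X * u`, constant coefficient of `u` equal to `1`, so
`D ^ n = X ^ n * u ^ n`.
-/

namespace Pool.Agent.Lib.MP_06b9d2_nt.MU

open Polynomial LaurentPolynomial

open Pool.Agent.L1 in
theorem root : ∃ E : PowerSeries F3, PowerSeries.constantCoeff E = 1 ∧ D = PowerSeries.X * E ^ 6 := by
  have h : Delz = SixReg.DeltaZ := by
    apply map_injective_C
    rw [map_Delz, SixReg.qExpansion_discriminant]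
  have h0 : PowerSeries.constantCoeff (PowerSeries.pentagonalSeries ℤ) = 1 := by
    have h1 := PowerSeries.coeff_pentagonalSeries_pentagonal ℤ 0
    have h2 : pentagonal 0 = 0 := by simp [pentagonal]
    rw [h2] at h1
    rw [← PowerSeries.coeff_zero_eq_constantCoeff_apply, h1]
    simp
  refine ⟨(PowerSeries.map (Int.castRingHom F3) (PowerSeries.pentagonalSeries ℤ)) ^ 4, ?_, ?_⟩
  · rw [map_pow, ← PowerSeries.coeff_zero_eq_constantCoeff_apply, PowerSeries.coeff_map,
      PowerSeries.coeff_zero_eq_constantCoeff_apply, h0, map_one, one_pow]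
  · rw [D, h, SixReg.DeltaZ, map_mul, map_pow, PowerSeries.map_X, ← pow_mul]

theorem D_form : ∃ W : PowerSeries F3, PowerSeries.constantCoeff W = 1 ∧
    D = PowerSeries.X * V 3 W := by
  obtain ⟨E, h1, h2⟩ := root
  refine ⟨E ^ 2, by rw [map_pow, h1, one_pow], ?_⟩
  rw [h2, ← cube, ← pow_mul]

private theorem D_unit : ∃ u : PowerSeries F3, PowerSeries.constantCoeff u = 1 ∧
    D = PowerSeries.X * u := by
  obtain ⟨E, h1, h2⟩ := root
  exact ⟨E ^ 6, by rw [map_pow, h1, one_pow], h2⟩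

theorem coeff_D_pow_lt (n m : ℕ) (h : m < n) : PowerSeries.coeff m (D ^ n) = 0 := by
  obtain ⟨u, h1, h2⟩ := D_unit
  rw [h2, mul_pow, PowerSeries.coeff_X_pow_mul', if_neg (by omega)]

theorem coeff_D_pow_self (n : ℕ) : PowerSeries.coeff n (D ^ n) = 1 := by
  obtain ⟨u, h1, h2⟩ := D_unit
  rw [h2, mul_pow, PowerSeries.coeff_X_pow_mul', if_pos le_rfl, Nat.sub_self,
    PowerSeries.coeff_zero_eq_constantCoeff_apply, map_pow, h1, one_pow]

theorem coeff_D_zero : PowerSeries.coeff 0 D = 0 := by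
  have h := coeff_D_pow_lt 1 0 (by norm_num)
  rwa [pow_one] at h

theorem coeff_D_one : PowerSeries.coeff 1 D = 1 := by
  have h := coeff_D_pow_self 1
  rwa [pow_one] at h

end Pool.Agent.Lib.MP_06b9d2_nt.MU
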