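import Pool.Agent.Lib.MP_06b9d2_nt.MU.Defs

/-!
Module MU-T2a. Basic properties of `lin` and of `T2`.

`lin s F = F.sum fun n a => a • s n` (`Module.Basis.constr_apply`, `Polynomial.basisMonomials`,
`Polynomial.coe_basisMonomials`, `Polynomial.toFinsuppIsoLinear`), or first `lin_X_pow`
(`Module.Basis.constr_basis` with `Polynomial.basisMonomials n = monomial n 1 = X ^ n`), then
`lin_ext` (`Polynomial.lhom_ext'` or `Polynomial.induction_on`), and `lin_apply` from
`Polynomial.as_sum_range'`.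
`t2_coeff`: strong induction. `t2_lead`: `t2 (3 k + 5) = X t2 (3 k + 3) - X ^ 3 t2 (3 k + 2)`, and
`X t2 (3 k + 3)` has degree at most `3 k + 3`, so the coefficient at `3 k + 4` is `-` the previous one.
`T2_inj2`: if `F ≠ 0` the leading coefficient of `F` gives that of `T2 F` (all other exponents of `F`
are smaller, `t2_coeff`).
`t2_nine`: `t2 (n + 9) = X ^ 3 t2 (n + 3) - X ^ 9 t2 n`: apply the recurrence to
`t2 (n + 9), t2 (n + 7), t2 (n + 6)` etc. (in characteristic `3`; unfold until everything is expressed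
through `t2 n, t2 (n + 1), t2 (n + 2)`; `linear_combination` with `(3 : F3[X]) = 0`).
`T2_cube`: it is enough to treat `y ^ n` (`F ^ 3 = ∑ F.coeff n • X ^ (3 n)`, `map_sum`,
`sum_pow_char`, `c ^ 3 = c` in `F3`); `t2 (3 n) = (t2 n) ^ 3` by induction with `t2_nine`.
-/

namespace Pool.Agent.Lib.MP_06b9d2_nt.MU

open Polynomial LaurentPolynomial

section
variable {M : Type*} [AddCommGroup M] [Module F3 M]

theorem lin_X_pow (s : ℕ → M) (n : ℕ) : lin s (X ^ n) = s n := by
  unfold lin
  have h : (X ^ n : F3[X]) = (Polynomial.basisMonomials F3) n := by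
    rw [Polynomial.coe_basisMonomials]
    exact (Polynomial.monomial_one_right_eq_X_pow n).symm
  rw [h, Module.Basis.constr_basis]

theorem lin_ext (f g : F3[X] →ₗ[F3] M) (h : ∀ n, f (X ^ n) = g (X ^ n)) : f = g := by
  apply Polynomial.lhom_ext'
  intro n
  ext
  simp only [LinearMap.comp_apply, Polynomial.monomial_one_right_eq_X_pow]
  exact h n

theorem lin_apply (s : ℕ → M) (F : F3[X]) (N : ℕ) (h : F.natDegree ≤ N) :
    lin s F = ∑ n ∈ Finset.range (N + 1), F.coeff n • s n := by
  conv_lhs => rw [F.as_sum_range' (N + 1) (by omega)]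
  rw [map_sum]
  apply Finset.sum_congr rfl
  intro n _
  rw [← mul_one (F.coeff n), ← smul_eq_mul, ← Polynomial.smul_monomial, map_smul,
    Polynomial.monomial_one_right_eq_X_pow, lin_X_pow, smul_eq_mul, mul_one]

end

theorem three_eq_zero : (3 : F3[X]) = 0 := by
  have h := CharP.cast_eq_zero F3[X] 3
  exact_mod_cast h

theorem T2_X_pow (n : ℕ) : T2 (X ^ n) = t2 n := lin_X_pow t2 n

private theorem T2a_rec (n : ℕ) : t2 (n + 3) = X * t2 (n + 1) - X ^ 3 * t2 n := by
  rw [t2]

private theorem T2a_cX (p : F3[X]) (m : ℕ) (h : 1 ≤ m) : (X * p).coeff m = p.coeff (m - 1) := by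
  obtain ⟨k, rfl⟩ : ∃ k, m = k + 1 := ⟨m - 1, by omega⟩
  rw [coeff_X_mul]
  rfl

private theorem T2a_cX3 (p : F3[X]) (m : ℕ) (h : 3 ≤ m) :
    (X ^ 3 * p).coeff m = p.coeff (m - 3) := by
  obtain ⟨k, rfl⟩ : ∃ k, m = k + 3 := ⟨m - 3, by omega⟩
  rw [coeff_X_pow_mul]
  rfl

theorem t2_coeff (n m : ℕ) (h : n ≤ m) : (t2 n).coeff m = 0 := by
  induction n using Nat.strong_induction_on generalizing m with
  | _ n ih =>
    match n, ih, h with
    | 0, _, _ => rw [t2]; exact coeff_zero m
    | 1, _, _ => rw [t2]; exact coeff_zero m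
    | 2, _, h => rw [t2, coeff_X, if_neg (by omega)]
    | (n + 3), ih, h =>
      rw [T2a_rec, coeff_sub, T2a_cX _ _ (by omega), T2a_cX3 _ _ (by omega),
        ih (n + 1) (by omega) _ (by omega), ih n (by omega) _ (by omega), sub_zero]

private theorem T2a_coeff_sum (F : F3[X]) (N m : ℕ) (h : F.natDegree ≤ N) :
    (T2 F).coeff m = ∑ n ∈ Finset.range (N + 1), F.coeff n * (t2 n).coeff m := by
  unfold T2
  rw [lin_apply t2 F N h, finsetSum_coeff]
  apply Finset.sum_congr rfl
  intro n _
  rw [coeff_smul, smul_eq_mul]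

theorem T2_coeff (F : F3[X]) (N : ℕ) (h : ∀ m, N < m → F.coeff m = 0) :
    ∀ m, N ≤ m → (T2 F).coeff m = 0 := by
  intro m hm
  rw [T2a_coeff_sum F N m (natDegree_le_iff_coeff_eq_zero.2 h)]
  apply Finset.sum_eq_zero
  intro n hn
  rw [Finset.mem_range] at hn
  rw [t2_coeff n m (by omega), mul_zero]

theorem t2_lead (k : ℕ) : (t2 (3 * k + 2)).coeff (3 * k + 1) = (-1) ^ k := by
  induction k with
  | zero => rw [mul_zero, zero_add, zero_add, t2, coeff_X_one, pow_zero]
  | succ k ih =>
    have e1 : 3 * (k + 1) + 2 = (3 * k + 2) + 3 := by ring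
    rw [e1, T2a_rec, coeff_sub, T2a_cX _ _ (by omega), T2a_cX3 _ _ (by omega),
      t2_coeff (3 * k + 2 + 1) _ (by omega)]
    have e2 : 3 * (k + 1) + 1 - 3 = 3 * k + 1 := by omega
    rw [e2, ih, pow_succ]
    ring

theorem t2_Ex (n : ℕ) : Ex (2 * n % 3) (t2 n) := by
  induction n using Nat.strong_induction_on with
  | _ n ih =>
    match n, ih with
    | 0, _ => intro m hm; rw [t2] at hm; exact absurd (coeff_zero m) hm
    | 1, _ => intro m hm; rw [t2] at hm; exact absurd (coeff_zero m) hm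
    | 2, _ =>
      intro m hm
      rw [t2, coeff_X] at hm
      by_cases h1 : 1 = m
      · subst h1; rfl
      · rw [if_neg h1] at hm; exact absurd rfl hm
    | (n + 3), ih =>
      intro m hm
      rw [T2a_rec, coeff_sub] at hm
      by_cases h1 : (X * t2 (n + 1)).coeff m = 0
      · by_cases h2 : (X ^ 3 * t2 n).coeff m = 0
        · rw [h1, h2, sub_zero] at hm; exact absurd rfl hm
        · have hm3 : 3 ≤ m := by
            by_contra hc
            apply h2
            rw [coeff_X_pow_mul', if_neg hc]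
          rw [T2a_cX3 _ _ hm3] at h2
          have := ih n (by omega) _ h2
          omega
      · have hm1 : 1 ≤ m := by
          by_contra hc
          apply h1
          have : m = 0 := by omega
          subst this
          exact coeff_X_mul_zero _
        rw [T2a_cX _ _ hm1] at h1
        have := ih (n + 1) (by omega) _ h1
        omega

theorem T2_Ex (r : ℕ) (F : F3[X]) (hF : Ex r F) : Ex (2 * r % 3) (T2 F) := by
  intro m hm
  rw [T2a_coeff_sum F F.natDegree m le_rfl] at hm
  obtain ⟨n, _, hn⟩ := Finset.exists_ne_zero_of_sum_ne_zero hm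
  have h1 := hF n (left_ne_zero_of_mul hn)
  have h2 := t2_Ex n m (right_ne_zero_of_mul hn)
  omega

theorem T2_inj2 (F : F3[X]) (hF : Ex 2 F) (h : T2 F = 0) : F = 0 := by
  by_contra hne
  have hl : F.coeff F.natDegree ≠ 0 := by
    rw [coeff_natDegree]
    exact leadingCoeff_ne_zero.2 hne
  have h2 := hF _ hl
  obtain ⟨k, hk⟩ : ∃ k, F.natDegree = 3 * k + 2 := ⟨F.natDegree / 3, by omega⟩
  have h3 := T2a_coeff_sum F (3 * k + 2) (3 * k + 1) (by omega)
  rw [h, coeff_zero, Finset.sum_range_succ, Finset.sum_eq_zero, zero_add, t2_lead, ← hk] at h3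
  · have h4 : ((-1 : F3) ^ k) ≠ 0 := pow_ne_zero _ (by decide)
    exact mul_ne_zero hl h4 h3.symm
  · intro n hn
    rw [Finset.mem_range] at hn
    rw [t2_coeff n _ (by omega), mul_zero]

theorem t2_nine (n : ℕ) : t2 (n + 9) = X ^ 3 * t2 (n + 3) - X ^ 9 * t2 n := by
  have e3 := T2a_rec n
  have e4 : t2 (n + 4) = X * t2 (n + 2) - X ^ 3 * t2 (n + 1) := T2a_rec (n + 1)
  have e5 : t2 (n + 5) = X * t2 (n + 3) - X ^ 3 * t2 (n + 2) := T2a_rec (n + 2)
  have e6 : t2 (n + 6) = X * t2 (n + 4) - X ^ 3 * t2 (n + 3) := T2a_rec (n + 3)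
  have e7 : t2 (n + 7) = X * t2 (n + 5) - X ^ 3 * t2 (n + 4) := T2a_rec (n + 4)
  have e9 : t2 (n + 9) = X * t2 (n + 7) - X ^ 3 * t2 (n + 6) := T2a_rec (n + 6)
  have h3 := three_eq_zero
  linear_combination e9 + X * e7 - X ^ 3 * e6 + X ^ 2 * e5 + X ^ 4 * e4 + X ^ 6 * e3 -
    X ^ 4 * t2 (n + 4) * h3

private theorem T2a_cube (n : ℕ) : t2 (3 * n) = (t2 n) ^ 3 := by
  induction n using Nat.strong_induction_on with
  | _ n ih =>
    match n, ih with
    | 0, _ => rw [mul_zero, t2, zero_pow (by decide)]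
    | 1, _ =>
      have e3 : t2 3 = X * t2 1 - X ^ 3 * t2 0 := T2a_rec 0
      have a0 : t2 0 = 0 := by rw [t2]
      have a1 : t2 1 = 0 := by rw [t2]
      rw [show 3 * 1 = 3 from rfl, e3, a0, a1]
      ring
    | 2, _ =>
      have e3 : t2 3 = X * t2 1 - X ^ 3 * t2 0 := T2a_rec 0
      have e4 : t2 4 = X * t2 2 - X ^ 3 * t2 1 := T2a_rec 1
      have e6 : t2 6 = X * t2 4 - X ^ 3 * t2 3 := T2a_rec 3
      have a0 : t2 0 = 0 := by rw [t2]
      have a1 : t2 1 = 0 := by rw [t2]
      have a2 : t2 2 = X := by rw [t2]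
      rw [show 3 * 2 = 6 from rfl, e6, e4, e3, a0, a1, a2]
      ring
    | (n + 3), ih =>
      have e1 : 3 * (n + 3) = 3 * n + 9 := by ring
      have e2 : 3 * n + 3 = 3 * (n + 1) := by ring
      rw [e1, t2_nine, e2, ih (n + 1) (by omega), ih n (by omega), T2a_rec, sub_pow_char,
        mul_pow, mul_pow, ← pow_mul]

theorem T2_cube (F : F3[X]) : T2 (F ^ 3) = (T2 F) ^ 3 := by
  induction F using Polynomial.induction_on' with
  | add p q hp hq => rw [add_pow_char, map_add, map_add, add_pow_char, hp, hq]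
  | monomial n a =>
    have e : (monomial n a : F3[X]) = a • X ^ n := by
      rw [← Polynomial.monomial_one_right_eq_X_pow, Polynomial.smul_monomial, smul_eq_mul, mul_one]
    have ha : a ^ 3 = a := ZMod.pow_card a
    rw [e, _root_.smul_pow, ha, ← pow_mul, map_smul, map_smul, _root_.smul_pow, ha, T2_X_pow, T2_X_pow,
      mul_comm n 3, T2a_cube]

/-- if `T2` kills a sum of polynomials with exponents in the classes `0, 1, 2`, it kills each of them -/
theorem T2_parts (F G H : F3[X]) (hF : Ex 0 F) (hG : Ex 1 G) (hH : Ex 2 H)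
    (h : T2 (F + G + H) = 0) : T2 F = 0 ∧ T2 G = 0 ∧ T2 H = 0 := by
  have h1 := T2_Ex 0 F hF
  have h2 := T2_Ex 1 G hG
  have h3 := T2_Ex 2 H hH
  have key : ∀ m, (T2 F).coeff m = 0 ∧ (T2 G).coeff m = 0 ∧ (T2 H).coeff m = 0 := by
    intro m
    have hs : (T2 F).coeff m + (T2 G).coeff m + (T2 H).coeff m = 0 := by
      have := congrArg (fun P => coeff P m) h
      simpa only [map_add, coeff_add, coeff_zero] using this
    have a1 := h1 m
    have a2 := h2 m
    have a3 := h3 m
    by_cases b1 : (T2 F).coeff m = 0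
    · by_cases b2 : (T2 G).coeff m = 0
      · rw [b1, b2, zero_add, zero_add] at hs
        exact ⟨b1, b2, hs⟩
      · have c2 := a2 b2
        have b3 : (T2 H).coeff m = 0 := by
          by_contra hc
          have := a3 hc
          omega
        rw [b1, b3, zero_add, add_zero] at hs
        exact absurd hs b2
    · have c1 := a1 b1
      have b2 : (T2 G).coeff m = 0 := by
        by_contra hc
        have := a2 hc
        omega
      have b3 : (T2 H).coeff m = 0 := by
        by_contra hc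
        have := a3 hc
        omega
      rw [b2, b3, add_zero, add_zero] at hs
      exact absurd hs b1
  refine ⟨?_, ?_, ?_⟩
  · ext m; rw [(key m).1, coeff_zero]
  · ext m; rw [(key m).2.1, coeff_zero]
  · ext m; rw [(key m).2.2, coeff_zero]

end Pool.Agent.Lib.MP_06b9d2_nt.MU
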