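import Pool.Agent.Lib.MP_06b9d2_nt.MU.T2a
import Pool.Agent.Lib.MP_06b9d2_nt.MU.M2

/-!
Module MU-T2q. The operator `T2` on `q`-expansions.

`t2_q`: induction with the recurrence. `V 2 (D ^ n) = (V 2 D) ^ n` satisfies it by `M2`; for
`U 2 (D ^ n)`: `D ^ 3 = V 2 D * D - (V 2 D) ^ 3` (the equation `M2` is symmetric), multiply by `D ^ n` and
apply `U 2` (`U_V_mul`). For `n = 0, 1, 2`: `TRgen` with `p = 2` gives a polynomial `G` of degree `≤ n`
with `ev G = V 2 (D ^ n) + 2 U 2 (D ^ n) = V 2 (D ^ n) - U 2 (D ^ n)`; compare the coefficients up to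
`q ^ n` with those of `- ev (t2 n)` (`ev_low` of module ET): `D = q + q ^ 4 + ⋯`, `D ^ 2 = q ^ 2 + ⋯`
(the coefficients of `D ^ n` up to `2 n`).
-/

namespace Pool.Agent.Lib.MP_06b9d2_nt.MU

open Polynomial LaurentPolynomial

private theorem T2q_D (n : ℕ) (hn : n ≤ 4) : PowerSeries.coeff n D =
    if n = 1 ∨ n = 4 then 1 else 0 := by
  rw [coeff_D]
  have key : ∀ m, m ≤ 4 → ((m : ℕ) : F3) ^ 2 * ((ArithmeticFunction.sigma 1 m : ℕ) : F3) =
      if m = 1 ∨ m = 4 then 1 else 0 := by
    intro m hm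
    interval_cases m <;> decide
  exact key n hn

private theorem T2q_D2 (n : ℕ) (hn : n ≤ 4) : PowerSeries.coeff n (D ^ 2) =
    if n = 2 then 1 else 0 := by
  rw [pow_two, PowerSeries.coeff_mul]
  have hs : ∑ x ∈ Finset.HasAntidiagonal.antidiagonal n,
        PowerSeries.coeff x.1 D * PowerSeries.coeff x.2 D =
      ∑ x ∈ Finset.HasAntidiagonal.antidiagonal n,
        ((if x.1 = 1 ∨ x.1 = 4 then 1 else 0 : F3) *
          (if x.2 = 1 ∨ x.2 = 4 then 1 else 0 : F3)) := by
    apply Finset.sum_congr rfl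
    intro x hx
    have := Finset.HasAntidiagonal.mem_antidiagonal.1 hx
    rw [T2q_D x.1 (by omega), T2q_D x.2 (by omega)]
  rw [hs]
  have key : ∀ m, m ≤ 4 → ∑ x ∈ Finset.HasAntidiagonal.antidiagonal m,
        ((if x.1 = 1 ∨ x.1 = 4 then 1 else 0 : F3) *
          (if x.2 = 1 ∨ x.2 = 4 then 1 else 0 : F3)) = if m = 2 then 1 else 0 := by
    intro m hm
    interval_cases m <;> decide
  exact key n hn

private theorem T2q_one : U 2 D - V 2 D = 0 := by
  obtain ⟨G, hG, hev⟩ := TRgen 2 Nat.prime_two (by norm_num) 1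
  rw [pow_one] at hev
  have h0 : G = 0 := by
    refine ev_low G 1 (fun n hn => ?_) hG
    rw [hev, map_add, PowerSeries.coeff_smul, coeff_V, coeff_U]
    interval_cases n
    · rw [T2q_D _ (by norm_num)]
      simp
    · rw [T2q_D (2 * 1) (by norm_num)]
      simp
  rw [h0, map_zero] at hev
  have h2 : ((2 : ℕ) : F3) = -1 := by decide
  rw [h2, neg_one_smul] at hev
  linear_combination hev

private theorem T2q_two : U 2 (D ^ 2) - V 2 (D ^ 2) = D := by
  obtain ⟨G, hG, hev⟩ := TRgen 2 Nat.prime_two (by norm_num) 2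
  have h0 : G + X = 0 := by
    refine ev_low (G + X) 2 (fun n hn => ?_) ?_
    · have hX : ev X = D := by rw [ev, Polynomial.aeval_X]
      rw [map_add, hX, hev, map_add, map_add, PowerSeries.coeff_smul, coeff_V, coeff_U]
      interval_cases n
      · rw [T2q_D2 _ (by norm_num), T2q_D _ (by norm_num)]
        simp
      · rw [T2q_D2 (2 * 1) (by norm_num), T2q_D _ (by norm_num)]
        simp
        decide
      · rw [T2q_D2 _ (by norm_num), T2q_D2 _ (by norm_num), T2q_D _ (by norm_num)]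
        simp
    · refine (natDegree_add_le _ _).trans (max_le hG ?_)
      exact natDegree_X_le.trans (by norm_num)
  have hX : ev X = D := by rw [ev, Polynomial.aeval_X]
  have h1 : ev (G + X) = 0 := by rw [h0, map_zero]
  rw [map_add, hX, hev] at h1
  have h2 : ((2 : ℕ) : F3) = -1 := by decide
  rw [h2, neg_one_smul] at h1
  linear_combination -h1

theorem t2_q (n : ℕ) : ev (t2 n) = U 2 (D ^ n) - V 2 (D ^ n) := by
  have hX : ev X = D := by rw [ev, Polynomial.aeval_X]
  induction n using Nat.strong_induction_on with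
  | _ n ih =>
    match n, ih with
    | 0, _ =>
      show ev 0 = _
      rw [map_zero, pow_zero, U_one 2 (by norm_num), V_one 2 (by norm_num), sub_self]
    | 1, _ =>
      show ev 0 = _
      rw [map_zero, pow_one, T2q_one]
    | 2, _ =>
      show ev X = _
      rw [hX, T2q_two]
    | (n + 3), ih =>
      have e : ev (t2 (n + 3)) = D * ev (t2 (n + 1)) - D ^ 3 * ev (t2 n) := by
        show ev (X * t2 (n + 1) - X ^ 3 * t2 n) = _
        rw [map_sub, map_mul, map_mul, map_pow, hX]
      have hV : ∀ m, V 2 (D ^ m) = V 2 D ^ m := fun m => V_pow 2 (by norm_num) D m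
      have hU : U 2 (D ^ (n + 3)) = D * U 2 (D ^ (n + 1)) - D ^ 3 * U 2 (D ^ n) := by
        have h1 : D ^ (n + 3) = V 2 D * D ^ (n + 1) - V 2 (D ^ 3) * D ^ n := by
          rw [hV 3]
          linear_combination (D ^ n) * M2
        rw [h1, U_sub, U_V_mul 2 (by norm_num), U_V_mul 2 (by norm_num)]
      have h2 : V 2 (D ^ (n + 3)) = D * V 2 (D ^ (n + 1)) - D ^ 3 * V 2 (D ^ n) := by
        rw [hV, hV, hV]
        linear_combination (V 2 D ^ n) * M2
      rw [e, ih (n + 1) (by omega), ih n (by omega), hU, h2]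
      ring

theorem T2_q (F : F3[X]) : ev (T2 F) = U 2 (ev F) - V 2 (ev F) := by
  let R : F3[X] →ₗ[F3] PowerSeries F3 :=
    { toFun := fun F => U 2 (ev F) - V 2 (ev F)
      map_add' := by
        intro F G
        rw [map_add, U_add, V_add]
        ring
      map_smul' := by
        intro c F
        rw [map_smul, U_smul, V_smul, RingHom.id_apply, smul_sub] }
  have h : ev.toLinearMap ∘ₗ T2 = R := by
    apply lin_ext
    intro n
    show ev (T2 (X ^ n)) = U 2 (ev (X ^ n)) - V 2 (ev (X ^ n))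
    rw [T2_X_pow, t2_q, map_pow, ev, Polynomial.aeval_X]
  exact LinearMap.congr_fun h F

end Pool.Agent.Lib.MP_06b9d2_nt.MU
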