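import Pool.Agent.Lib.MP_06b9d2_nt.ME.MatN

/-!
Module MU-TrP. Right multiplication by `SL(2, ℤ)` permutes the representatives `dl n j` of
`SL(2, ℤ) \ M_n`.

`dl_bij n` (`ME/MatN.lean`): every `A : Mn n` is `δ • dl n j` for unique `δ, j`. `perm`: `σ j` is the
second component of the preimage of `rmul n (dl n j) γ`; it is injective, because
`dl n j γ = δ dl n i`, `dl n j' γ = δ' dl n i` give `dl n j' = δ' δ⁻¹ dl n j`, so `j = j'`; an injective
map of a finite type is bijective (`Finite.injective_iff_bijective`, `Equiv.ofBijective`).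
`gl_rmul`: as `gl_smul` (`ME/MatN.lean`). `sum_inv`: `perm`, `Equiv.sum_comp`.
-/

namespace Pool.Agent.Lib.MP_06b9d2_nt.MU

open Pool.Agent.Lib.MP_06b9d2_nt.ME
open UpperHalfPlane
open scoped MatrixGroups ModularForm

/-- right multiplication -/
def rmul (n : ℕ) (A : Mn n) (γ : SL(2, ℤ)) : Mn n := ⟨A.1 * (γ : Matrix (Fin 2) (Fin 2) ℤ), by
  rw [Matrix.det_mul, A.2, γ.2, mul_one]⟩

theorem gl_rmul (n : ℕ) [NeZero n] (A : Mn n) (γ : SL(2, ℤ)) :
    ME.gl n (rmul n A γ) = ME.gl n A * Matrix.SpecialLinearGroup.mapGL ℝ γ := by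
  apply Matrix.GeneralLinearGroup.ext
  intro i j
  simp [ME.gl, rmul, Matrix.GeneralLinearGroup.mkOfDetNeZero, Matrix.mul_apply]

private theorem rmul_smul (n : ℕ) (δ : SL(2, ℤ)) (A : Mn n) (γ : SL(2, ℤ)) :
    rmul n (δ • A) γ = δ • rmul n A γ := by
  apply Subtype.ext
  show (δ • A : Mn n).1 * (γ : Matrix (Fin 2) (Fin 2) ℤ) = (δ • rmul n A γ : Mn n).1
  rw [FixedDetMatrices.smul_coe, FixedDetMatrices.smul_coe]
  show _ = (δ : Matrix (Fin 2) (Fin 2) ℤ) * (A.1 * (γ : Matrix (Fin 2) (Fin 2) ℤ))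
  rw [Matrix.mul_assoc]

private theorem rmul_rmul (n : ℕ) (A : Mn n) (γ γ' : SL(2, ℤ)) :
    rmul n (rmul n A γ) γ' = rmul n A (γ * γ') := by
  apply Subtype.ext
  show A.1 * (γ : Matrix (Fin 2) (Fin 2) ℤ) * (γ' : Matrix (Fin 2) (Fin 2) ℤ) =
    A.1 * ((γ * γ' : SL(2, ℤ)) : Matrix (Fin 2) (Fin 2) ℤ)
  rw [Matrix.SpecialLinearGroup.coe_mul, Matrix.mul_assoc]

private theorem rmul_one (n : ℕ) (A : Mn n) : rmul n A 1 = A := by
  apply Subtype.ext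
  show A.1 * ((1 : SL(2, ℤ)) : Matrix (Fin 2) (Fin 2) ℤ) = A.1
  rw [Matrix.SpecialLinearGroup.coe_one, Matrix.mul_one]

theorem perm (n : ℕ) [NeZero n] (γ : SL(2, ℤ)) : ∃ σ : Rp n ≃ Rp n, ∀ j, ∃ δ : SL(2, ℤ),
    rmul n (ME.dl n j) γ = δ • ME.dl n (σ j) := by
  classical
  have hs : ∀ j : Rp n, ∃ q : SL(2, ℤ) × Rp n, (q.1 • ME.dl n q.2 : Mn n) =
      rmul n (ME.dl n j) γ := fun j => (ME.dl_bij n).2 _
  choose q hq using hs
  have hinj : Function.Injective (fun j => (q j).2) := by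
    intro j j' h
    have h' : (q j).2 = (q j').2 := h
    have h1 := hq j
    have h2 := hq j'
    rw [← h'] at h2
    have h3 : ((q j').1 * (q j).1⁻¹) • rmul n (ME.dl n j) γ = rmul n (ME.dl n j') γ := by
      rw [← h1, mul_smul, inv_smul_smul, h2]
    have h4 : (((q j').1 * (q j).1⁻¹) • ME.dl n j : Mn n) = ME.dl n j' := by
      have h5 := congrArg (fun A => rmul n A γ⁻¹) h3
      simp only [rmul_smul, rmul_rmul, mul_inv_cancel, rmul_one] at h5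
      exact h5
    have h6 : (((q j').1 * (q j).1⁻¹, j) : SL(2, ℤ) × Rp n) = (1, j') :=
      (ME.dl_bij n).1 (by
        show (((q j').1 * (q j).1⁻¹) • ME.dl n j : Mn n) = (1 : SL(2, ℤ)) • ME.dl n j'
        rw [h4, one_smul])
    exact congrArg Prod.snd h6
  refine ⟨Equiv.ofBijective _ (Finite.injective_iff_bijective.mp hinj), fun j => ⟨(q j).1, ?_⟩⟩
  exact (hq j).symm

theorem sum_inv (n : ℕ) [NeZero n] {M : Type*} [AddCommMonoid M] (Φ : Mn n → M)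
    (hΦ : ∀ (δ : SL(2, ℤ)) (A : Mn n), Φ (δ • A) = Φ A) (γ : SL(2, ℤ)) :
    ∑ j, Φ (rmul n (ME.dl n j) γ) = ∑ j, Φ (ME.dl n j) := by
  obtain ⟨σ, hσ⟩ := perm n γ
  rw [← Equiv.sum_comp σ (fun j => Φ (ME.dl n j))]
  refine Finset.sum_congr rfl fun j _ => ?_
  obtain ⟨δ, hδ⟩ := hσ j
  rw [hδ, hΦ]

end Pool.Agent.Lib.MP_06b9d2_nt.MU
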