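import Pool.Agent.Lib.MP_06b9d2_nt.MU.TrS
import Pool.Agent.Lib.L1.Eis
import Pool.Agent.Lib.L1.SpanC

/-!
Module MU-TrQ. The `q`-expansion of the trace is an integral modular form.

`nice_Rz`: `nice_E2`, `nice_fV`. `nice_Tr`: `nice_discriminant`, `nice_fU`, `nice_pow` (`L1/Eis.lean`),
`Nice.mul, Nice.smul, Nice.add`. `qexp_Rz`: with `S1 = ∑ σ_1(m) q ^ m` over `ℤ`, `E2 = 1 - 24 S1`
(`coeff_qExpansion_E2`), so `(E2 - p V_p E2) / 3 = (1 - p) / 3 - 8 S1 + 8 p V_p S1`; with `p = 3 a + 1`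
this is `-a - 8 S1 + 8 p V_p S1`.
`TrQ`: `mkForm (12 n + 2 k) (Tr p k n) nice Tr_slash` (`L1/Ram.lean`) is a modular form whose
`q`-expansion is the image of the integral series (`map_Delz`, `qexp_fV`, `qexp_fU`,
`Nice.qExpansion_mul`, `qExpansion_nice_pow`, `V_map`, `U_map`, `qexp_Rz`); then `form_descend`
(`L1/SpanC.lean`) with `φ = Int.castRingHom ℂ`. `TrQ0`: the same with `k = 0` (no condition on `p`).
-/

namespace Pool.Agent.Lib.MP_06b9d2_nt.MU

open Pool.Agent.Lib.MP_06b9d2_nt.ME Pool.Agent.L1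
open UpperHalfPlane ModularForm EisensteinSeries
open scoped MatrixGroups ModularForm

/-- `∑ σ_1(n) q ^ n` -/
noncomputable def S1z : PowerSeries ℤ := PowerSeries.mk fun n => ((ArithmeticFunction.sigma 1 n : ℕ) : ℤ)

/-- `(E2 - p V_p E2) / 3` for `p = 3 a + 1` -/
noncomputable def Rq (a : ℕ) : PowerSeries ℤ :=
  -(a : PowerSeries ℤ) - 8 * S1z + 8 * ((3 * a + 1 : ℕ) : PowerSeries ℤ) * V (3 * a + 1) S1z

theorem nice_Rz (p : ℕ) (hp : 0 < p) : Nice (Rz p) :=
  (nice_E2.sub ((nice_fV p hp E2 nice_E2).smul _)).smul _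

theorem nice_Tr (p : ℕ) (hp : 0 < p) (k n : ℕ) : Nice (Tr p k n) :=
  (((nice_pow (nice_Rz p hp) k).mul
    (nice_pow (nice_fV p hp _ nice_discriminant) n)).smul _).add
    (nice_fU p hp _ ((nice_pow (nice_Rz p hp).neg k).mul (nice_pow nice_discriminant n)))

private theorem TrQ_E2z : E2z = 1 - 24 * S1z := by
  ext n
  rw [show (24 : PowerSeries ℤ) = PowerSeries.C (24 : ℤ) from (map_ofNat PowerSeries.C 24).symm,
    map_sub, PowerSeries.coeff_C_mul, coeff_E2z, PowerSeries.coeff_one, S1z, PowerSeries.coeff_mk]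
  split_ifs with h
  · subst h; simp
  · ring

private theorem TrQ_pos (a : ℕ) : 0 < 3 * a + 1 := Nat.succ_pos _

theorem qexp_Rz (a : ℕ) : qExpansion 1 (Rz (3 * a + 1)) =
    PowerSeries.map (Int.castRingHom ℂ) (Rq a) := by
  have hp := TrQ_pos a
  have hV : qExpansion 1 (fV (3 * a + 1) E2) =
      1 - 24 * PowerSeries.map (Int.castRingHom ℂ) (V (3 * a + 1) S1z) := by
    have h24 := V_smul (3 * a + 1) (24 : ℤ) S1z
    rw [PowerSeries.smul_eq_C_mul, PowerSeries.smul_eq_C_mul,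
      show PowerSeries.C (24 : ℤ) = (24 : PowerSeries ℤ) from map_ofNat PowerSeries.C 24] at h24
    rw [qexp_fV _ hp _ nice_E2, ← map_E2z, ← V_map, TrQ_E2z, V_sub, V_one _ hp, h24]
    simp only [map_sub, map_one, map_mul, map_ofNat]
  have hE : qExpansion 1 E2 = 1 - 24 * PowerSeries.map (Int.castRingHom ℂ) S1z := by
    rw [← map_E2z, TrQ_E2z]
    simp only [map_sub, map_one, map_mul, map_ofNat]
  have h3 : (3 : PowerSeries ℂ) * PowerSeries.C (3⁻¹ : ℂ) = 1 := by
    rw [show (3 : PowerSeries ℂ) = PowerSeries.C (3 : ℂ)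
      from (map_ofNat PowerSeries.C 3).symm, ← map_mul]
    norm_num
  rw [Rz, Nice.qExpansion_smul (nice_E2.sub ((nice_fV _ hp E2 nice_E2).smul _)),
    Nice.qExpansion_sub nice_E2 ((nice_fV _ hp E2 nice_E2).smul _),
    Nice.qExpansion_smul (nice_fV _ hp E2 nice_E2), hV, hE, Rq,
    PowerSeries.smul_eq_C_mul, PowerSeries.smul_eq_C_mul]
  simp only [map_sub, map_add, map_mul, map_neg, map_natCast, map_ofNat]
  push_cast
  set S := PowerSeries.map (Int.castRingHom ℂ) S1z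
  set W := PowerSeries.map (Int.castRingHom ℂ) (V (3 * a + 1) S1z)
  linear_combination (-(a : PowerSeries ℂ) - 8 * S + 8 * (3 * a + 1) * W) * h3

theorem TrQ (p a : ℕ) (hp : p.Prime) (ha : p = 3 * a + 1) (k n : ℕ) :
    (p : ℤ) ^ (k + 12 * n) • (Rq a ^ k * V p (Delz ^ n)) + (p : ℤ) • U p ((-Rq a) ^ k * Delz ^ n) ∈
      ML ℤ (12 * n + 2 * k) := by
  subst ha
  have hp0 := TrQ_pos a
  have hR := nice_Rz _ hp0
  have hVd := nice_fV _ hp0 _ nice_discriminant
  refine form_descend (Int.castRingHom ℂ) Int.cast_injective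
    (mkForm _ (Tr (3 * a + 1) k n) (nice_Tr _ hp0 k n) (Tr_slash _ hp k n)) ?_
  rw [coe_mkForm, Tr, Nice.qExpansion_add
      (((nice_pow hR k).mul (nice_pow hVd n)).smul _)
      (nice_fU _ hp0 _ ((nice_pow hR.neg k).mul (nice_pow nice_discriminant n))),
    Nice.qExpansion_smul ((nice_pow hR k).mul (nice_pow hVd n)),
    Nice.qExpansion_mul (nice_pow hR k) (nice_pow hVd n), qExpansion_nice_pow hR,
    qExpansion_nice_pow hVd, qexp_fV _ hp0 _ nice_discriminant, qexp_fU _ hp0 _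
      ((nice_pow hR.neg k).mul (nice_pow nice_discriminant n)),
    Nice.qExpansion_mul (nice_pow hR.neg k) (nice_pow nice_discriminant n),
    qExpansion_nice_pow hR.neg, qExpansion_nice_pow nice_discriminant,
    show -Rz (3 * a + 1) = (-1 : ℂ) • Rz (3 * a + 1) from (neg_one_smul ℂ _).symm,
    Nice.qExpansion_smul hR, qexp_Rz, ← map_Delz, neg_one_smul]
  simp only [PowerSeries.smul_eq_C_mul, zsmul_eq_mul, map_add, map_mul, map_pow, V_map,
    U_map, map_neg, V_pow _ hp0, map_natCast, Int.cast_natCast, Int.cast_pow]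

theorem TrQ0 (p : ℕ) (hp : p.Prime) (n : ℕ) :
    (p : ℤ) ^ (12 * n) • V p (Delz ^ n) + (p : ℤ) • U p (Delz ^ n) ∈ ML ℤ (12 * n) := by
  have hp0 := hp.pos
  have hVd := nice_fV _ hp0 _ nice_discriminant
  have hTr : Tr p 0 n = (p : ℂ) ^ (12 * n) • fV p discriminant ^ n +
      fU p ((discriminant : ℍ → ℂ) ^ n) := by
    rw [Tr, pow_zero, pow_zero, one_mul, one_mul, zero_add]
  have hs := Tr_slash p hp 0 n
  rw [show 12 * n + 2 * 0 = 12 * n from rfl, hTr] at hs
  have hnice := nice_Tr p hp0 0 n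
  rw [hTr] at hnice
  refine form_descend (Int.castRingHom ℂ) Int.cast_injective
    (mkForm _ _ hnice hs) ?_
  rw [coe_mkForm, Nice.qExpansion_add ((nice_pow hVd n).smul _)
      (nice_fU _ hp0 _ (nice_pow nice_discriminant n)),
    Nice.qExpansion_smul (nice_pow hVd n), qExpansion_nice_pow hVd,
    qexp_fV _ hp0 _ nice_discriminant, qexp_fU _ hp0 _ (nice_pow nice_discriminant n),
    qExpansion_nice_pow nice_discriminant, ← map_Delz]
  simp only [PowerSeries.smul_eq_C_mul, zsmul_eq_mul, map_add, map_mul, map_pow, V_map,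
    U_map, V_pow _ hp0, map_natCast, Int.cast_natCast, Int.cast_pow]

end Pool.Agent.Lib.MP_06b9d2_nt.MU
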