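import Pool.Agent.Lib.MP_06b9d2_nt.MU.TrQ
import Pool.Agent.Lib.MP_06b9d2_nt.MU.Gm

/-!
Module MU-TrR. The traces modulo `3`.

`ML_red`: `mem_ML_iff` (`L1/Span.lean`), `map_bas`: modulo `3`, `e4 = e6 = 1` (`240` and `504` are
divisible by `3`), so `bas F3 k j = dl F3 ^ j = D ^ j`, and `12 j ≤ k` for `j < dd k` (`ba_eq`).
`TRgen`: `TrQ0` modulo `3`; `p ^ 12 = 1` in `F3` if `p ≠ 3` is prime.
`TR1`: `p = 3 a + 1`, so `p = 1` in `F3`. Let `r` be the reduction of `Rq a`: `r = c + Gm - V p Gm` with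
`c = -a` (`-8 = 1`, `8 p = -1` in `F3`), so `r ^ 3 - r = V p D - D` (`c ^ 3 = c`, `Gm ^ 3 - Gm = -D`,
`add_pow_char`, `V_pow`). `TrQ` with the exponent `K`: `r ^ K (V p D) ^ n + U p ((-r) ^ K D ^ n)` is
`ev` of a polynomial of degree `≤ (12 n + 2 K) / 12`. The combination
`∑_i (k choose i) (-1) ^ (k - i) (K = 3 i + (k - i))` gives
`(r ^ 3 - r) ^ k (V p D) ^ n + U p (((-r) ^ 3 - (-r)) ^ k D ^ n)` (`add_pow`, `sub_eq_add_neg`), and
`(-r) ^ 3 - (-r) = D - V p D`; `K ≤ 3 k`, so the degree is `≤ (12 n + 6 k) / 12`.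
-/

namespace Pool.Agent.Lib.MP_06b9d2_nt.MU

open Polynomial LaurentPolynomial

private theorem TrR_e4 : Pool.Agent.L1.e4 F3 = 1 := by
  rw [Pool.Agent.L1.e4, Pool.Agent.L1.E4z_eq, map_add, map_mul, map_one, map_ofNat]
  have h : (240 : PowerSeries F3) = 0 := by
    rw [show (240 : PowerSeries F3) = PowerSeries.C (240 : F3) from
      (map_ofNat PowerSeries.C 240).symm, show (240 : F3) = 0 by decide, map_zero]
  rw [h, zero_mul, add_zero]

private theorem TrR_e6 : Pool.Agent.L1.e6 F3 = 1 := by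
  rw [Pool.Agent.L1.e6, Pool.Agent.L1.E6z_eq, map_sub, map_mul, map_one, map_ofNat]
  have h : (504 : PowerSeries F3) = 0 := by
    rw [show (504 : PowerSeries F3) = PowerSeries.C (504 : F3) from
      (map_ofNat PowerSeries.C 504).symm, show (504 : F3) = 0 by decide, map_zero]
  rw [h, zero_mul, sub_zero]

private theorem TrR_bas (k j : ℕ) : Pool.Agent.L1.bas F3 k j = D ^ j := by
  rw [Pool.Agent.L1.bas, TrR_e4, TrR_e6, one_pow, one_pow, mul_one, mul_one]
  rfl

theorem ML_red (k : ℕ) (f : PowerSeries ℤ) (hf : f ∈ Pool.Agent.L1.ML ℤ k) : ∃ G : F3[X],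
    12 * G.natDegree ≤ k ∧ ev G = PowerSeries.map (Int.castRingHom F3) f := by
  obtain ⟨c, hc⟩ := Pool.Agent.L1.mem_ML_iff.1 hf
  refine ⟨∑ j ∈ Finset.range (Pool.Agent.L1.dd k), Polynomial.C ((c j : ℤ) : F3) * X ^ j, ?_, ?_⟩
  · have h : (∑ j ∈ Finset.range (Pool.Agent.L1.dd k), Polynomial.C ((c j : ℤ) : F3) * X ^ j).natDegree ≤
        k / 12 := by
      refine natDegree_sum_le_of_forall_le _ _ fun j hj => ?_
      refine (natDegree_C_mul_X_pow_le _ _).trans ?_
      have := Pool.Agent.L1.ba_eq (Finset.mem_range.1 hj)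
      omega
    omega
  · rw [hc, map_sum, map_sum]
    refine Finset.sum_congr rfl fun j _ => ?_
    have hl : ev (Polynomial.C ((c j : ℤ) : F3) * X ^ j) =
        PowerSeries.C ((c j : ℤ) : F3) * D ^ j := by
      rw [ev, map_mul, aeval_C, map_pow, aeval_X]
      rfl
    rw [hl, PowerSeries.smul_eq_C_mul, map_mul, Pool.Agent.L1.map_bas, TrR_bas, PowerSeries.map_C,
      eq_intCast]

private theorem TrR_cast (p : ℕ) (hp : p.Prime) (h3 : p ≠ 3) : (p : F3) ^ 2 = 1 := by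
  have : Fact (Nat.Prime 3) := ⟨Nat.prime_three⟩
  have h : (p : F3) ≠ 0 := by
    intro h
    rw [ZMod.natCast_eq_zero_iff] at h
    exact h3 ((Nat.prime_dvd_prime_iff_eq Nat.prime_three hp).1 h).symm
  exact ZMod.pow_card_sub_one_eq_one h

theorem TRgen (p : ℕ) (hp : p.Prime) (h3 : p ≠ 3) (n : ℕ) : ∃ G : F3[X], G.natDegree ≤ n ∧
    ev G = V p (D ^ n) + (p : F3) • U p (D ^ n) := by
  obtain ⟨G, h1, h2⟩ := ML_red _ _ (TrQ0 p hp n)
  refine ⟨G, by omega, ?_⟩
  have h4 : (p : F3) ^ (12 * n) = 1 := by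
    rw [show 12 * n = 2 * (6 * n) by ring, pow_mul, TrR_cast p hp h3, one_pow]
  have h5 : (p : PowerSeries F3) ^ (12 * n) = 1 := by
    rw [← map_natCast (PowerSeries.C (R := F3)), ← map_pow, h4, map_one]
  rw [h2, map_add, zsmul_eq_mul, zsmul_eq_mul, map_mul, map_mul, V_map, U_map, map_pow,
    PowerSeries.smul_eq_C_mul, map_natCast]
  simp only [Int.cast_pow, Int.cast_natCast, map_pow, map_natCast]
  rw [h5, one_mul]
  rfl

private theorem TrR_S1z : PowerSeries.map (Int.castRingHom F3) S1z = Gm := by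
  ext n
  rw [PowerSeries.coeff_map, S1z, Gm, PowerSeries.coeff_mk, PowerSeries.coeff_mk]
  simp

private theorem TrR_red (a : ℕ) : PowerSeries.map (Int.castRingHom F3) (Rq a) =
    -(a : PowerSeries F3) + Gm - V (3 * a + 1) Gm := by
  have h3 : (3 : PowerSeries F3) = 0 := by
    rw [show (3 : PowerSeries F3) = PowerSeries.C (3 : F3) from
      (map_ofNat PowerSeries.C 3).symm, show (3 : F3) = 0 by decide, map_zero]
  rw [Rq]
  simp only [map_sub, map_add, map_mul, map_neg, map_natCast, map_ofNat, V_map, TrR_S1z]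
  push_cast
  linear_combination (-3 * Gm + (3 + 8 * (a : PowerSeries F3)) * V (3 * a + 1) Gm) * h3

private theorem TrR_alg {R : Type*} [CommRing R] (x g v w d : R) :
    x + (g - d) - (v - w) - (x + g - v) = w - d := by ring

private theorem TrR_cube (p a : ℕ) (hp : 0 < p) :
    (-(a : PowerSeries F3) + Gm - V p Gm) ^ 3 - (-(a : PowerSeries F3) + Gm - V p Gm) =
      V p D - D := by
  have : Fact (Nat.Prime 3) := ⟨Nat.prime_three⟩
  have ha : V 3 (a : PowerSeries F3) = a := by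
    have h := V_smul 3 (a : F3) (1 : PowerSeries F3)
    rw [V_one 3 (by norm_num), PowerSeries.smul_eq_C_mul, map_natCast, mul_one] at h
    exact h
  have hG : V 3 Gm = Gm - D := by
    rw [← cube, ← Gm_rel, sub_sub_cancel]
  have hV : V 3 (V p Gm) = V p Gm - V p D := by
    rw [V_V 3 p (by norm_num) hp, mul_comm, ← V_V p 3 hp (by norm_num), hG, V_sub]
  rw [cube, V_sub, V_add, V_neg, ha, hG, hV]
  exact TrR_alg _ _ _ _ _

private theorem TrR_comb (r d v A B : PowerSeries F3) (hc : r ^ 3 - r = v - d) (p n k : ℕ)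
    (G : ℕ → F3[X]) (hG1 : ∀ K, 12 * (G K).natDegree ≤ 12 * n + 2 * K)
    (hG2 : ∀ K, ev (G K) = r ^ K * A + U p ((-r) ^ K * B)) : ∃ G : F3[X],
    2 * G.natDegree ≤ 2 * n + k ∧
    ev G = (v - d) ^ k * A + U p ((d - v) ^ k * B) := by
  obtain ⟨P, hP, hPe⟩ : ∃ P : F3[X], P.natDegree ≤ 3 * k ∧
      ∀ x : PowerSeries F3, aeval x P = (x ^ 3 - x) ^ k := by
    refine ⟨(X ^ 3 - X) ^ k, ?_, fun x => by simp⟩
    refine natDegree_pow_le.trans ?_
    rw [mul_comm]
    refine Nat.mul_le_mul_right _ ?_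
    refine (natDegree_sub_le _ _).trans ?_
    rw [natDegree_X_pow, natDegree_X]
    norm_num
  have hs : ∀ x : PowerSeries F3, (x ^ 3 - x) ^ k = ∑ K ∈ Finset.range (P.natDegree + 1),
      P.coeff K • x ^ K := fun x => by rw [← hPe x, aeval_eq_sum_range]
  refine ⟨∑ K ∈ Finset.range (P.natDegree + 1), P.coeff K • G K, ?_, ?_⟩
  · have h : (∑ K ∈ Finset.range (P.natDegree + 1), P.coeff K • G K).natDegree ≤
        (12 * n + 6 * k) / 12 := by
      refine natDegree_sum_le_of_forall_le _ _ fun K hK => ?_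
      refine (natDegree_smul_le _ _).trans ?_
      have h1 := hG1 K
      have h2 := Finset.mem_range.1 hK
      omega
    omega
  · have e1 := hs r
    have e2 := hs (-r)
    rw [hc] at e1
    rw [show (-r) ^ 3 - (-r) = d - v from by linear_combination -hc] at e2
    rw [e1, e2, map_sum, Finset.sum_mul, Finset.sum_mul, U_sum, ← Finset.sum_add_distrib]
    refine Finset.sum_congr rfl fun K _ => ?_
    rw [map_smul, hG2, smul_mul_assoc, smul_mul_assoc, U_smul, smul_add]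

theorem TR1 (p : ℕ) (hp : p.Prime) (h3 : p % 3 = 1) (k n : ℕ) : ∃ G : F3[X],
    2 * G.natDegree ≤ 2 * n + k ∧
    ev G = (V p D - D) ^ k * V p D ^ n + U p ((D - V p D) ^ k * D ^ n) := by
  obtain ⟨a, ha⟩ : ∃ a, p = 3 * a + 1 := ⟨p / 3, by omega⟩
  have hp0 : 0 < p := hp.pos
  have hp1 : (p : PowerSeries F3) = 1 := by
    rw [← map_natCast (PowerSeries.C (R := F3)), ha]
    push_cast
    rw [show (3 : F3) = 0 by decide, zero_mul, zero_add, map_one]
  set r := PowerSeries.map (Int.castRingHom F3) (Rq a) with hr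
  have hr1 : r = -(a : PowerSeries F3) + Gm - V p Gm := by rw [hr, TrR_red, ha]
  have hc : r ^ 3 - r = V p D - D := by
    have h := TrR_cube p a hp0
    rw [← hr1] at h
    exact h
  have hK : ∀ K : ℕ, ∃ G : F3[X], 12 * G.natDegree ≤ 12 * n + 2 * K ∧
      ev G = r ^ K * V p D ^ n + U p ((-r) ^ K * D ^ n) := by
    intro K
    obtain ⟨G, h1, h2⟩ := ML_red _ _ (TrQ p a hp ha K n)
    refine ⟨G, h1, ?_⟩
    rw [h2, map_add, zsmul_eq_mul, zsmul_eq_mul, map_mul, map_mul, map_mul, V_map, U_map, map_mul,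
      map_pow, map_pow, map_pow, map_neg, ← hr]
    simp only [Int.cast_pow, Int.cast_natCast, map_pow, map_natCast]
    rw [hp1, one_pow, one_mul, one_mul, V_pow p hp0]
    rfl
  choose G hG1 hG2 using hK
  exact TrR_comb r D (V p D) (V p D ^ n) (D ^ n) hc p n k G hG1 hG2

end Pool.Agent.Lib.MP_06b9d2_nt.MU
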