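import Pool.Agent.Lib.MP_06b9d2_nt.MU.TrP
import Pool.Agent.Lib.MP_06b9d2_nt.MU.EzS
import Pool.Agent.Lib.MP_06b9d2_nt.MU.NvA
import Pool.Agent.Lib.MP_06b9d2_nt.MU.NvB
import Pool.Agent.Lib.L1.Delta

/-!
Module MU-TrS. Traces from level `p` to level `1`.

`Phi p k n A = ((p / 3) (E2s - E2s ∣[2] A)) ^ k (p Δ ∣[12] A) ^ n`. `Phi_smul`: `gl_smul`,
`SlashAction.slash_mul`, `E2s_slash` and the invariance of the discriminant
(`discriminant ∣[12] γ = discriminant`: it is a multiple of `E₄ ^ 3 - E₆ ^ 2` by `discriminant_fun`, or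
Mathlib `ModularForm.discriminant`, `CuspForm.discriminant`; look for its slash invariance).
`Phi_slash`: `gl_rmul`, `SlashAction.slash_mul`, and the slash action is multiplicative for `SL(2, ℤ)`:
`ModularForm.mul_slash_SL2`, and for powers by induction (`ModularForm.prod_slash_SL2`, or look at
`ModularForm.mul_slash`); `∣[k]` is additive (`SlashAction.add_slash`, `SlashAction.neg_slash`) and
commutes with scalars for `SL(2, ℤ)` (`ModularForm.SL_smul_slash`).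
`Phi_top`, `Phi_bot`: for `A = (a b; 0 d)` with `a d = p`: `(f ∣[k] gl A) τ = f((a τ + b) / d) p ^ (k - 1)
d ^ (-k)` (private theorem `slash_dl` of `ME/SlashN.lean`, copy it), and
`Im ((a τ + b) / d) = a Im τ / d`. `A = (p 0; 0 1)`: `E2s - E2s ∣ A = E2(τ) - p E2(p τ)`;
`A = (1 b; 0 p)`: `E2s - E2s ∣ A = E2(τ) - E2((τ + b) / p) / p`, and `E2 (τ) = E2(p σ)` for
`σ = (τ + b) / p` (periodicity, `nice_E2.per`).
`Tr_eq`: `Rp p` is the sigma type over the divisors `1, p` of the prime `p` (`Nat.Prime.divisors`,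
`Fintype.sum_sigma`, `Finset.sum_coe_sort`, as in `hecke_slash` of `ME/SlashN.lean`).
`Tr_slash`: `Phi_slash`, `sum_inv` (module TrP) with `Phi_smul`.
-/

namespace Pool.Agent.Lib.MP_06b9d2_nt.MU

open Pool.Agent.Lib.MP_06b9d2_nt.ME Pool.Agent.L1
open UpperHalfPlane ModularForm EisensteinSeries
open scoped MatrixGroups ModularForm

/-- the summands of the trace -/
noncomputable def Phi (p : ℕ) [NeZero p] (k n : ℕ) (A : Mn p) : ℍ → ℂ :=
  (((p : ℂ) / 3) • (E2s - E2s ∣[(2 : ℤ)] ME.gl p A)) ^ k *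
    ((p : ℂ) • ((discriminant : ℍ → ℂ) ∣[(12 : ℤ)] ME.gl p A)) ^ n

/-- `(E2(τ) - p E2(p τ)) / 3` -/
noncomputable def Rz (p : ℕ) : ℍ → ℂ := (3⁻¹ : ℂ) • (E2 - (p : ℂ) • fV p E2)

/-- the trace -/
noncomputable def Tr (p k n : ℕ) : ℍ → ℂ :=
  (p : ℂ) ^ (k + 12 * n) • (Rz p ^ k * fV p discriminant ^ n) + fU p ((-Rz p) ^ k * discriminant ^ n)

private theorem disc_slash (γ : SL(2, ℤ)) :
    (discriminant : ℍ → ℂ) ∣[(12 : ℤ)] (Matrix.SpecialLinearGroup.mapGL ℝ γ) = discriminant :=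
  SlashInvariantForm.slash_action_eqn (Γ := 𝒮ℒ) CuspForm.discriminant _
    (MonoidHom.mem_range.2 ⟨γ, rfl⟩)

theorem Phi_smul (p : ℕ) [NeZero p] (k n : ℕ) (δ : SL(2, ℤ)) (A : Mn p) :
    Phi p k n (δ • A) = Phi p k n A := by
  have h1 : E2s ∣[(2 : ℤ)] (Matrix.SpecialLinearGroup.mapGL ℝ δ) = E2s := E2s_slash δ
  unfold Phi
  rw [gl_smul, SlashAction.slash_mul, SlashAction.slash_mul, h1, disc_slash]

private theorem pow_slash (w : ℤ) (f : ℍ → ℂ) (γ : SL(2, ℤ)) (k : ℕ) :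
    (f ^ k) ∣[w * (k : ℤ)] γ = (f ∣[w] γ) ^ k := by
  induction k with
  | zero =>
    rw [pow_zero, pow_zero, Nat.cast_zero, mul_zero]
    exact ModularForm.is_invariant_one γ
  | succ k ih =>
    have e : w * ((k + 1 : ℕ) : ℤ) = w * (k : ℤ) + w := by
      push_cast
      ring
    rw [e, pow_succ, pow_succ, ModularForm.mul_slash_SL2, ih]

theorem Phi_slash (p : ℕ) [NeZero p] (k n : ℕ) (γ : SL(2, ℤ)) (A : Mn p) :
    Phi p k n A ∣[((12 * n + 2 * k : ℕ) : ℤ)] γ = Phi p k n (rmul p A γ) := by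
  have e : ((12 * n + 2 * k : ℕ) : ℤ) = 2 * (k : ℤ) + 12 * (n : ℤ) := by
    push_cast
    ring
  have h1 : (E2s ∣[(2 : ℤ)] ME.gl p A) ∣[(2 : ℤ)] γ = E2s ∣[(2 : ℤ)] ME.gl p (rmul p A γ) := by
    rw [gl_rmul, SlashAction.slash_mul]
    rfl
  have h2 : ((discriminant : ℍ → ℂ) ∣[(12 : ℤ)] ME.gl p A) ∣[(12 : ℤ)] γ =
      (discriminant : ℍ → ℂ) ∣[(12 : ℤ)] ME.gl p (rmul p A γ) := by
    rw [gl_rmul, SlashAction.slash_mul]
    rfl
  unfold Phi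
  rw [e, ModularForm.mul_slash_SL2, pow_slash, pow_slash, ModularForm.SL_smul_slash,
    ModularForm.SL_smul_slash, sub_eq_add_neg, SlashAction.add_slash, SlashAction.neg_slash, h1, h2,
    E2s_slash, ← sub_eq_add_neg]

private theorem sig_pos {g : GL (Fin 2) ℝ} (hg : 0 < g.det.val) (z : ℂ) : σ g z = z := by
  simp only [σ, if_pos hg, ContinuousAlgEquiv.refl_apply]

private theorem gl_coe (n : ℕ) [NeZero n] (A : Mn n) (i j : Fin 2) :
    (ME.gl n A) i j = ((A.1 i j : ℤ) : ℝ) := rfl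

private theorem npos (n : ℕ) [NeZero n] : (0 : ℝ) < n := by
  exact_mod_cast Nat.pos_of_ne_zero (NeZero.ne n)

private theorem nne (n : ℕ) [NeZero n] : (n : ℂ) ≠ 0 := by
  exact_mod_cast NeZero.ne n

private theorem slash_dl (k : ℤ) {n : ℕ} [NeZero n] (f : ℍ → ℂ) (A : Mn n) (τ : ℍ) (w : ℂ) (d : ℂ)
    (h0 : A.1 1 0 = 0) (hd : ((A.1 1 1 : ℤ) : ℂ) = d)
    (hw : (((A.1 0 0 : ℤ) : ℂ) * τ + ((A.1 0 1 : ℤ) : ℂ)) / d = w) :
    (f ∣[k] ME.gl n A) τ = f (ofComplex w) * (n : ℂ) ^ (k - 1) * d ^ (-k) := by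
  have hp : 0 < (ME.gl n A).det.val := by
    rw [det_gl]
    exact npos n
  have hden : denom (ME.gl n A) τ = d := by
    rw [denom, gl_coe, gl_coe, h0, ← hd]
    simp
  have hco : ((ME.gl n A • τ : ℍ) : ℂ) = w := by
    rw [coe_smul_of_det_pos hp, hden, num, gl_coe, gl_coe, ← hw]
    simp
  have hpt : ofComplex w = ME.gl n A • τ := by
    rw [← hco, ofComplex_apply]
  rw [ModularForm.slash_apply, sig_pos hp, det_gl, hden, hpt]
  congr 2
  rw [abs_of_pos (npos n)]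
  norm_num

private theorem im_pos_top (p : ℕ) [NeZero p] (τ : ℍ) : 0 < ((p : ℂ) * (τ : ℂ)).im := by
  have h : ((p : ℂ) * (τ : ℂ)).im = (p : ℝ) * τ.im := by
    simp [Complex.mul_im]
  rw [h]
  exact mul_pos (npos p) τ.im_pos

private theorem im_top (p : ℕ) [NeZero p] (τ : ℍ) :
    (ofComplex ((p : ℂ) * (τ : ℂ))).im = (p : ℝ) * τ.im := by
  rw [ofComplex_apply_of_im_pos (im_pos_top p τ)]
  show ((p : ℂ) * (τ : ℂ)).im = _
  simp [Complex.mul_im]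

private theorem im_bot' (p : ℕ) [NeZero p] (b : ℕ) (τ : ℍ) :
    (((τ : ℂ) + (b : ℂ)) / (p : ℂ)).im = τ.im / (p : ℝ) := by
  rw [Complex.div_natCast_im]
  simp

private theorem im_pos_bot (p : ℕ) [NeZero p] (b : ℕ) (τ : ℍ) :
    0 < (((τ : ℂ) + (b : ℂ)) / (p : ℂ)).im := by
  rw [im_bot']
  exact div_pos τ.im_pos (npos p)

private theorem im_bot (p : ℕ) [NeZero p] (b : ℕ) (τ : ℍ) :
    (ofComplex (((τ : ℂ) + (b : ℂ)) / (p : ℂ))).im = τ.im / (p : ℝ) := by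
  rw [ofComplex_apply_of_im_pos (im_pos_bot p b τ)]
  exact im_bot' p b τ

private theorem coe_bot (p : ℕ) [NeZero p] (b : ℕ) (τ : ℍ) :
    ((ofComplex (((τ : ℂ) + (b : ℂ)) / (p : ℂ)) : ℍ) : ℂ) = ((τ : ℂ) + (b : ℂ)) / (p : ℂ) := by
  rw [ofComplex_apply_of_im_pos (im_pos_bot p b τ)]

private theorem E2_per (b : ℕ) (τ : ℍ) : E2 (ofComplex ((τ : ℂ) + (b : ℂ))) = E2 τ := by
  have h := (nice_E2.per.nat_mul b) (τ : ℂ)
  simp only [Function.comp_apply] at h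
  rw [ofComplex_apply] at h
  rw [← h]
  congr 2
  push_cast
  ring

theorem Phi_top (p : ℕ) [NeZero p] (k n : ℕ) (j : Rp p) (h : (j.1 : ℕ) = p) :
    Phi p k n (ME.dl p j) = (p : ℂ) ^ (k + 12 * n) • (Rz p ^ k * fV p discriminant ^ n) := by
  have hb : (j.2 : ℕ) = 0 := by
    have h2 := j.2.2
    have h3 : p / (j.1 : ℕ) = 1 := by
      rw [h, Nat.div_self (Nat.pos_of_ne_zero (NeZero.ne p))]
    omega
  have a00 : ((ME.dl p j).1 0 0 : ℤ) = (p : ℤ) := by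
    simp [ME.dl, h]
  have a01 : ((ME.dl p j).1 0 1 : ℤ) = 0 := by
    simp [ME.dl, hb]
  have a10 : ((ME.dl p j).1 1 0 : ℤ) = 0 := by
    simp [ME.dl]
  have a11 : ((ME.dl p j).1 1 1 : ℤ) = 1 := by
    simp [ME.dl, h, Nat.div_self (Nat.pos_of_ne_zero (NeZero.ne p))]
  have key : ∀ (w : ℤ) (f : ℍ → ℂ) (τ : ℍ), (f ∣[w] ME.gl p (ME.dl p j)) τ =
      f (ofComplex ((p : ℂ) * (τ : ℂ))) * (p : ℂ) ^ (w - 1) := by
    intro w f τ
    rw [slash_dl w f (ME.dl p j) τ ((p : ℂ) * (τ : ℂ)) 1 a10 (by rw [a11]; norm_num)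
      (by rw [a00, a01]; push_cast; ring), one_zpow, mul_one]
  have hF : ((p : ℂ) / 3) • (E2s - E2s ∣[(2 : ℤ)] ME.gl p (ME.dl p j)) = (p : ℂ) • Rz p := by
    funext τ
    have hi : ((Real.pi * τ.im : ℝ) : ℂ) ≠ 0 := by
      exact_mod_cast (mul_pos Real.pi_pos τ.im_pos).ne'
    rw [Pi.smul_apply, Pi.sub_apply, key, Pi.smul_apply, Rz, Pi.smul_apply, Pi.sub_apply,
      Pi.smul_apply, E2s, E2s, im_top, fV]
    have hm : ((Real.pi * ((p : ℝ) * τ.im) : ℝ) : ℂ) = (p : ℂ) * ((Real.pi * τ.im : ℝ) : ℂ) := by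
      push_cast
      ring
    rw [hm]
    simp only [smul_eq_mul]
    have hp := nne p
    have e1 : (2 : ℤ) - 1 = 1 := by norm_num
    rw [e1, zpow_one]
    field_simp
    ring
  have hH : (p : ℂ) • ((discriminant : ℍ → ℂ) ∣[(12 : ℤ)] ME.gl p (ME.dl p j)) =
      (p : ℂ) ^ 12 • fV p discriminant := by
    funext τ
    rw [Pi.smul_apply, key, Pi.smul_apply, fV]
    simp only [smul_eq_mul]
    have e1 : (12 : ℤ) - 1 = ((11 : ℕ) : ℤ) := by norm_num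
    rw [e1, zpow_natCast]
    ring
  unfold Phi
  rw [hF, hH, smul_pow, smul_pow, smul_mul_smul_comm, ← pow_mul, ← pow_add]

theorem Phi_bot (p : ℕ) [NeZero p] (k n : ℕ) (j : Rp p) (h : (j.1 : ℕ) = 1) :
    Phi p k n (ME.dl p j) = fun τ : ℍ => ((-Rz p) ^ k * (discriminant : ℍ → ℂ) ^ n)
      (ofComplex (((τ : ℂ) + ((j.2 : ℕ) : ℂ)) / (p : ℂ))) := by
  have a00 : ((ME.dl p j).1 0 0 : ℤ) = 1 := by
    simp [ME.dl, h]
  have a01 : ((ME.dl p j).1 0 1 : ℤ) = ((j.2 : ℕ) : ℤ) := by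
    simp [ME.dl]
  have a10 : ((ME.dl p j).1 1 0 : ℤ) = 0 := by
    simp [ME.dl]
  have a11 : ((ME.dl p j).1 1 1 : ℤ) = (p : ℤ) := by
    simp [ME.dl, h]
  have key : ∀ (w : ℤ) (f : ℍ → ℂ) (τ : ℍ), (f ∣[w] ME.gl p (ME.dl p j)) τ =
      f (ofComplex (((τ : ℂ) + ((j.2 : ℕ) : ℂ)) / (p : ℂ))) * (p : ℂ) ^ (w - 1) * (p : ℂ) ^ (-w) := by
    intro w f τ
    rw [slash_dl w f (ME.dl p j) τ (((τ : ℂ) + ((j.2 : ℕ) : ℂ)) / (p : ℂ)) p a10
      (by rw [a11]; push_cast; rfl) (by rw [a00, a01]; push_cast; ring)]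
  have key2 : ∀ (w : ℤ) (f : ℍ → ℂ) (τ : ℍ), (f ∣[w] ME.gl p (ME.dl p j)) τ =
      f (ofComplex (((τ : ℂ) + ((j.2 : ℕ) : ℂ)) / (p : ℂ))) * (p : ℂ)⁻¹ := by
    intro w f τ
    rw [key, mul_assoc, ← zpow_add₀ (nne p), show w - 1 + -w = -1 by ring, zpow_neg_one]
  have hF : ((p : ℂ) / 3) • (E2s - E2s ∣[(2 : ℤ)] ME.gl p (ME.dl p j)) = fun τ : ℍ =>
      (-Rz p) (ofComplex (((τ : ℂ) + ((j.2 : ℕ) : ℂ)) / (p : ℂ))) := by
    funext τ
    have hi : ((Real.pi * τ.im : ℝ) : ℂ) ≠ 0 := by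
      exact_mod_cast (mul_pos Real.pi_pos τ.im_pos).ne'
    have hp := nne p
    rw [Pi.smul_apply, Pi.sub_apply, key2, Pi.neg_apply, Rz, Pi.smul_apply, Pi.sub_apply,
      Pi.smul_apply, E2s, E2s, im_bot, fV, coe_bot]
    have hm : ((Real.pi * (τ.im / (p : ℝ)) : ℝ) : ℂ) = ((Real.pi * τ.im : ℝ) : ℂ) / (p : ℂ) := by
      push_cast
      ring
    have hm2 : (p : ℂ) * (((τ : ℂ) + ((j.2 : ℕ) : ℂ)) / (p : ℂ)) = (τ : ℂ) + ((j.2 : ℕ) : ℂ) := by
      field_simp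
    rw [hm, hm2, E2_per]
    simp only [smul_eq_mul]
    field_simp
    ring
  have hH : (p : ℂ) • ((discriminant : ℍ → ℂ) ∣[(12 : ℤ)] ME.gl p (ME.dl p j)) = fun τ : ℍ =>
      (discriminant : ℍ → ℂ) (ofComplex (((τ : ℂ) + ((j.2 : ℕ) : ℂ)) / (p : ℂ))) := by
    funext τ
    rw [Pi.smul_apply, key2, smul_eq_mul, mul_comm, mul_assoc, inv_mul_cancel₀ (nne p), mul_one]
  unfold Phi
  rw [hF, hH]
  funext τ
  simp only [Pi.mul_apply, Pi.pow_apply]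

theorem Tr_eq (p : ℕ) [NeZero p] (hp : p.Prime) (k n : ℕ) :
    ∑ j, Phi p k n (ME.dl p j) = Tr p k n := by
  classical
  set top : ℍ → ℂ := (p : ℂ) ^ (k + 12 * n) • (Rz p ^ k * fV p discriminant ^ n) with htop
  set bot : ℍ → ℂ := fU p ((-Rz p) ^ k * discriminant ^ n) with hbot
  have hne : p ≠ 1 := hp.one_lt.ne'
  have hin : ∀ a : ↥p.divisors, ∑ b : Fin (p / (a : ℕ)), Phi p k n (ME.dl p ⟨a, b⟩) =
      (fun c : ℕ => if c = 1 then bot else top) (a : ℕ) := by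
    intro a
    rcases (Nat.dvd_prime hp).1 (Nat.dvd_of_mem_divisors a.2) with h | h
    · simp only [h, if_true]
      have e1 : ∀ b : Fin (p / (a : ℕ)), Phi p k n (ME.dl p ⟨a, b⟩) =
          (fun c : ℕ => fun τ : ℍ => ((-Rz p) ^ k * (discriminant : ℍ → ℂ) ^ n)
            (ofComplex (((τ : ℂ) + (c : ℂ)) / (p : ℂ)))) (b : ℕ) := fun b =>
        Phi_bot p k n ⟨a, b⟩ h
      have e2 := Fin.sum_univ_eq_sum_range (fun c : ℕ => fun τ : ℍ =>
        ((-Rz p) ^ k * (discriminant : ℍ → ℂ) ^ n) (ofComplex (((τ : ℂ) + (c : ℂ)) / (p : ℂ))))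
        (p / (a : ℕ))
      refine (Finset.sum_congr rfl fun b _ => e1 b).trans (e2.trans ?_)
      rw [h, Nat.div_one]
      funext τ
      rw [Finset.sum_apply]
      rfl
    · have h1 : (a : ℕ) ≠ 1 := by rw [h]; exact hne
      simp only [h1, if_false]
      rw [Finset.sum_congr rfl fun b _ => Phi_top p k n ⟨a, b⟩ h, Finset.sum_const,
        Finset.card_univ, Fintype.card_fin, h, Nat.div_self hp.pos, one_smul]
  rw [Fintype.sum_sigma, Finset.sum_congr rfl fun a _ => hin a,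
    Finset.sum_coe_sort p.divisors (fun c : ℕ => if c = 1 then bot else top),
    Nat.Prime.sum_divisors hp]
  simp only [hne, if_false, if_true]
  rfl

theorem Tr_slash (p : ℕ) (hp : p.Prime) (k n : ℕ) (γ : SL(2, ℤ)) :
    Tr p k n ∣[((12 * n + 2 * k : ℕ) : ℤ)] γ = Tr p k n := by
  have : NeZero p := ⟨hp.ne_zero⟩
  rw [← Tr_eq p hp k n, SlashAction.sum_slash, Finset.sum_congr rfl fun j _ => Phi_slash p k n γ _]
  exact sum_inv p (fun A => Phi p k n A) (fun δ A => Phi_smul p k n δ A) γ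

end Pool.Agent.Lib.MP_06b9d2_nt.MU
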